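import Pool.Agent.LibPF5.Defs

/-! If a homomorphism is onto modulo the commutator subgroup, it is onto modulo every term of the lower central series. -/

set_option autoImplicit false

namespace Pool.Agent.LibPF5

open Subgroup
open scoped commutatorElement

private theorem C2_step {G : Type} [Group G] (H : Subgroup G) (n : ℕ) (h1 : H ⊔ lcs G 1 = ⊤)
    (h : H ⊔ lcs G n = ⊤) : H ⊔ lcs G (n + 1) = ⊤ := by
  set K := H ⊔ lcs G (n + 1) with hK
  have hnorm : K.Normal := by
    rw [← Subgroup.normalizer_eq_top_iff, eq_top_iff, ← h]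
    apply sup_le
    · exact le_sup_left.trans Subgroup.le_normalizer
    · intro x hx
      rw [Subgroup.mem_normalizer_iff]
      have key : ∀ y ∈ lcs G n, ∀ k ∈ K, y * k * y⁻¹ ∈ K := by
        intro y hy k hk
        have h3 : ⁅y, k⁆ ∈ K := (le_sup_right : lcs G (n + 1) ≤ K)
          (Subgroup.commutator_mem_commutator hy (Subgroup.mem_top k))
        have h4 : y * k * y⁻¹ = ⁅y, k⁆ * k := by rw [commutatorElement_def]; group
        rw [h4]
        exact mul_mem h3 hk
      intro k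
      constructor
      · exact key x hx k
      · intro hk
        have := key x⁻¹ (inv_mem hx) _ hk
        have h5 : x⁻¹ * (x * k * x⁻¹) * x⁻¹⁻¹ = k := by group
        rwa [h5] at this
  have hs : (⊤ : Subgroup G).map (QuotientGroup.mk' K) = (lcs G n).map (QuotientGroup.mk' K) := by
    have hH : H.map (QuotientGroup.mk' K) = ⊥ := by
      rw [Subgroup.map_eq_bot_iff, QuotientGroup.ker_mk']; exact le_sup_left
    rw [← h, Subgroup.map_sup, hH, bot_sup_eq]
  have hc : (lcs G 1).map (QuotientGroup.mk' K) = ⊥ := by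
    have h2 : lcs G 1 = ⁅(⊤ : Subgroup G), ⊤⁆ := rfl
    rw [h2, Subgroup.map_commutator]
    conv_lhs => rw [show ⁅(⊤ : Subgroup G).map (QuotientGroup.mk' K), (⊤ : Subgroup G).map (QuotientGroup.mk' K)⁆ =
      ⁅(lcs G n).map (QuotientGroup.mk' K), (⊤ : Subgroup G).map (QuotientGroup.mk' K)⁆ by rw [← hs]]
    rw [← Subgroup.map_commutator]
    have h3 : ⁅lcs G n, (⊤ : Subgroup G)⁆ = lcs G (n + 1) := rfl
    rw [h3, Subgroup.map_eq_bot_iff, QuotientGroup.ker_mk']
    exact le_sup_right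
  rw [Subgroup.map_eq_bot_iff, QuotientGroup.ker_mk'] at hc
  rw [eq_top_iff, ← h1]
  exact sup_le le_sup_left hc

theorem C2 {F G : Type} [Group F] [Group G] (ψ : F →* G) (h : ∀ x : G, ∃ w, (ψ w)⁻¹ * x ∈ lcs G 1) (n : ℕ)
    (x : G) : ∃ w, (ψ w)⁻¹ * x ∈ lcs G n := by
  have h1 : ψ.range ⊔ lcs G 1 = ⊤ := by
    rw [eq_top_iff]
    intro x _
    obtain ⟨w, hw⟩ := h x
    have : x = ψ w * ((ψ w)⁻¹ * x) := by group
    rw [this]
    exact Subgroup.mul_mem_sup ⟨w, rfl⟩ hw
  have h2 : ψ.range ⊔ lcs G n = ⊤ := by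
    induction n with
    | zero => exact sup_top_eq _
    | succ n ih => exact C2_step _ n h1 ih
  haveI : (lcs G n).Normal := inferInstance
  have hx : x ∈ ((ψ.range ⊔ lcs G n : Subgroup G) : Set G) := by rw [h2]; exact Subgroup.mem_top x
  rw [Subgroup.mul_normal] at hx
  obtain ⟨_, ⟨w, rfl⟩, z, hz, rfl⟩ := hx
  refine ⟨w, ?_⟩
  have : (ψ w)⁻¹ * (ψ w * z) = z := by group
  change (ψ w)⁻¹ * (ψ w * z) ∈ lcs G n
  rw [this]
  exact hz

end Pool.Agent.LibPF5
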