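import Pool.Agent.LibPF5.Defs

/-!
Row L3 (MEDIUM/STRONG). P. Hall: a finitely generated `Z[Γ]`-module on which `K` acts trivially is noetherian, if there is a
chain from `K` to `Γ` (skew Hilbert basis theorem).

PLAN. Write `g • a` for `MonoidAlgebra.of ℤ Γ g • a`. For a subgroup `H` call an additive subgroup `B ≤ A` `H`-stable if `h • B ⊆ B` for
`h ∈ H`. Let `N(H)` be the statement: for every finite `X ⊆ A`, the smallest `H`-stable subgroup `⟨X⟩_H` containing `X` satisfies the ascending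
chain condition for `H`-stable subgroups contained in it (every monotone sequence is eventually constant).
`N(K)`: `K` acts trivially, so `⟨X⟩_K` is a f.g. abelian group and all subgroups are `K`-stable: noetherian `ℤ`-module.
Step `N(H) → N(H')`, `H' = H ⊔ zpowers g`, `H` normal in `Γ`. `A₀ = ⟨X⟩_H`. `g^k • A₀` is `H`-stable (`H` normal), and `⟨X⟩_{H'}` is the sum of the
`g^k • A₀`, `k ∈ ℤ`. For an `H'`-stable `B ≤ ⟨X⟩_{H'}` and `n ≥ 0` put `A_{<n} = ∑_{0 ≤ k < n} g^k A₀` and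
`L_n(B) = {a ∈ A₀ : g^n a ∈ B + A_{<n}}`: `H`-stable (twist by conjugation with `g^n`), `L_n(B) ≤ L_{n+1}(B)` (apply `g`), monotone in `B`.
Given a monotone sequence `B_j`: choose (ACC for `H`-stable subgroups of `A₀`) `n₀, j₀` with `L_n(B_j) = L_{n₀}(B_{j₀})` for `n ≥ n₀, j ≥ j₀`
(look at the diagonal `L_i(B_i)`), and for each `n < n₀` a `j_n` from which on `L_n(B_j)` is constant. Let `J` be the maximum. Claim
`B_j ∩ A_{<n} ⊆ B_J` for all `n`, `j ≥ J`: induction on `n`: `b = g^n a + a'` with `a ∈ A₀`, `a' ∈ A_{<n}`, so `a ∈ L_n(B_j) = L_n(B_J)`,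
`g^n a = b' + a''`, `b' ∈ B_J`, `b - b' ∈ B_j ∩ A_{<n}`. Finally each element of `B_j` is moved by a power of `g` into some `A_{<n}` and `B_J` is stable
under `g` and its inverse. So `B_j = B_J`.
At the end (`H = ⊤`): `⊤`-stable additive subgroups are the `Z[Γ]`-submodules, `⟨X⟩_⊤ = A` for a finite generating set `X`, and the ascending
chain condition is `IsNoetherian` (`isNoetherian_iff'`, `WellFoundedGT` / `monotone_stabilizes_iff_noetherian`).
-/

set_option autoImplicit false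

namespace Pool.Agent.LibPF5

section L3aux

variable {Γ A : Type} [Group Γ] [AddCommGroup A]

private structure L3_Act (T : Γ → A →+ A) : Prop where
  mul : ∀ g h a, T (g * h) a = T g (T h a)
  one : ∀ a, T 1 a = a

private def L3_St (T : Γ → A →+ A) (H : Subgroup Γ) (B : AddSubgroup A) : Prop :=
  ∀ h ∈ H, ∀ b ∈ B, T h b ∈ B

private def L3_gen (T : Γ → A →+ A) (H : Subgroup Γ) (X : Set A) : AddSubgroup A :=
  AddSubgroup.closure {y | ∃ h ∈ H, ∃ x ∈ X, y = T h x}

private def L3_N (T : Γ → A →+ A) (H : Subgroup Γ) : Prop :=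
  ∀ X : Set A, X.Finite → ∀ f : ℕ → AddSubgroup A, Monotone f → (∀ i, L3_St T H (f i)) →
    (∀ i, f i ≤ L3_gen T H X) → ∃ n, ∀ m, n ≤ m → f m = f n

private theorem L3_gen_St {T : Γ → A →+ A} (hT : L3_Act T) (H : Subgroup Γ) (X : Set A) :
    L3_St T H (L3_gen T H X) := by
  intro h hh b hb
  refine AddSubgroup.closure_induction (p := fun b _ => T h b ∈ L3_gen T H X) ?_ ?_ ?_ ?_ hb
  · rintro _ ⟨h', hh', x, hx, rfl⟩
    rw [← hT.mul]
    exact AddSubgroup.subset_closure ⟨h * h', H.mul_mem hh hh', x, hx, rfl⟩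
  · rw [map_zero]
    exact AddSubgroup.zero_mem _
  · intro a b _ _ ha hb
    rw [map_add]
    exact AddSubgroup.add_mem _ ha hb
  · intro a _ ha
    rw [map_neg]
    exact AddSubgroup.neg_mem _ ha

/-- ascending chains below a finitely generated additive subgroup -/
private theorem L3_acc (A0 : AddSubgroup A) (hfg : A0.FG) (f : ℕ → AddSubgroup A)
    (hf : Monotone f) (hle : ∀ i, f i ≤ A0) : ∃ n, ∀ m, n ≤ m → f m = f n := by
  have h1 : Module.Finite ℤ A0 := by
    have h2 : (AddSubgroup.toIntSubmodule A0).FG := by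
      rw [Submodule.fg_iff_addSubgroup_fg]
      exact hfg
    exact Module.Finite.iff_fg.2 h2
  have h2 : IsNoetherian ℤ A0 := isNoetherian_of_isNoetherianRing_of_finite ℤ A0
  rw [← monotone_stabilizes_iff_noetherian] at h2
  obtain ⟨n, hn⟩ := h2 ⟨fun i => AddSubgroup.toIntSubmodule ((f i).addSubgroupOf A0), by
    intro i j hij x hx
    exact hf hij hx⟩
  refine ⟨n, fun m hm => ?_⟩
  have h3 := hn m hm
  ext x
  constructor
  · intro hx
    have h4 : (⟨x, hle m hx⟩ : A0) ∈ AddSubgroup.toIntSubmodule ((f m).addSubgroupOf A0) := hx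
    have h5 : (⟨x, hle m hx⟩ : A0) ∈ AddSubgroup.toIntSubmodule ((f n).addSubgroupOf A0) := by
      have h6 := h3
      simp only [OrderHom.coe_mk] at h6
      rw [h6]
      exact h4
    exact h5
  · intro hx
    exact hf hm hx

private theorem L3_base {T : Γ → A →+ A} (K : Subgroup Γ) (hK : ∀ k ∈ K, ∀ a, T k a = a) :
    L3_N T K := by
  intro X hX f hf _ hle
  refine L3_acc (AddSubgroup.closure X) ?_ f hf ?_
  · exact ⟨hX.toFinset, by rw [Set.Finite.coe_toFinset]⟩
  · intro i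
    refine (hle i).trans ?_
    unfold L3_gen
    rw [AddSubgroup.closure_le]
    rintro _ ⟨h, hh, x, hx, rfl⟩
    rw [hK h hh]
    exact AddSubgroup.subset_closure hx

private def L3_W (T : Γ → A →+ A) (g : Γ) (A0 : AddSubgroup A) : ℕ → AddSubgroup A
  | 0 => ⊥
  | n + 1 => L3_W T g A0 n ⊔ A0.map (T (g ^ n))

private theorem L3_W_mono {T : Γ → A →+ A} (g : Γ) (A0 : AddSubgroup A) :
    Monotone (L3_W T g A0) := by
  apply monotone_nat_of_le_succ
  intro n
  exact le_sup_left

private theorem L3_W_St {T : Γ → A →+ A} (hT : L3_Act T) {H : Subgroup Γ} (hn : H.Normal)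
    (g : Γ) {A0 : AddSubgroup A} (hA0 : L3_St T H A0) (n : ℕ) : L3_St T H (L3_W T g A0 n) := by
  induction n with
  | zero =>
    intro h _ b hb
    have : b = 0 := hb
    rw [this, map_zero]
    exact AddSubgroup.zero_mem _
  | succ n ih =>
    intro h hh b hb
    obtain ⟨a, ha, c, hc, rfl⟩ := AddSubgroup.mem_sup.1 hb
    obtain ⟨y, hy, rfl⟩ := hc
    rw [map_add]
    refine AddSubgroup.add_mem _ (AddSubgroup.mem_sup_left (ih h hh a ha))
      (AddSubgroup.mem_sup_right ?_)
    have h1 : (g ^ n)⁻¹ * h * g ^ n ∈ H := by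
      have := hn.conj_mem h hh (g ^ n)⁻¹
      rwa [inv_inv] at this
    refine ⟨T ((g ^ n)⁻¹ * h * g ^ n) y, hA0 _ h1 y hy, ?_⟩
    show T (g ^ n) (T ((g ^ n)⁻¹ * h * g ^ n) y) = T h (T (g ^ n) y)
    rw [← hT.mul, ← hT.mul]
    congr 1
    group

private theorem L3_W_shift {T : Γ → A →+ A} (hT : L3_Act T) (g : Γ) (A0 : AddSubgroup A)
    (n : ℕ) : ∀ b ∈ L3_W T g A0 n, T g b ∈ L3_W T g A0 (n + 1) := by
  induction n with
  | zero =>
    intro b hb
    have : b = 0 := hb
    rw [this, map_zero]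
    exact AddSubgroup.zero_mem _
  | succ n ih =>
    intro b hb
    obtain ⟨a, ha, c, hc, rfl⟩ := AddSubgroup.mem_sup.1 hb
    obtain ⟨y, hy, rfl⟩ := hc
    rw [map_add]
    refine AddSubgroup.add_mem _ (AddSubgroup.mem_sup_left (ih a ha))
      (AddSubgroup.mem_sup_right ⟨y, hy, ?_⟩)
    show T (g ^ (n + 1)) y = T g (T (g ^ n) y)
    rw [← hT.mul, pow_succ']

private theorem L3_W_shift' {T : Γ → A →+ A} (hT : L3_Act T) (g : Γ) (A0 : AddSubgroup A)
    (n m : ℕ) : ∀ b ∈ L3_W T g A0 n, T (g ^ m) b ∈ L3_W T g A0 (n + m) := by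
  induction m with
  | zero =>
    intro b hb
    rw [pow_zero, hT.one]
    exact hb
  | succ m ih =>
    intro b hb
    rw [pow_succ', hT.mul]
    exact L3_W_shift hT g A0 (n + m) _ (ih b hb)

private def L3_L (T : Γ → A →+ A) (g : Γ) (A0 : AddSubgroup A) (n : ℕ) (B : AddSubgroup A) :
    AddSubgroup A := A0 ⊓ (B ⊔ L3_W T g A0 n).comap (T (g ^ n))

private theorem L3_L_St {T : Γ → A →+ A} (hT : L3_Act T) {H : Subgroup Γ} (hn : H.Normal)
    (g : Γ) {A0 : AddSubgroup A} (hA0 : L3_St T H A0) (n : ℕ) {B : AddSubgroup A}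
    (hB : L3_St T H B) : L3_St T H (L3_L T g A0 n B) := by
  rintro h hh a ⟨ha1, ha2⟩
  refine ⟨hA0 h hh a ha1, ?_⟩
  show T (g ^ n) (T h a) ∈ B ⊔ L3_W T g A0 n
  have h1 : T (g ^ n) (T h a) = T (g ^ n * h * (g ^ n)⁻¹) (T (g ^ n) a) := by
    rw [← hT.mul, ← hT.mul]
    congr 1
    group
  rw [h1]
  obtain ⟨b, hb, c, hc, hbc⟩ := AddSubgroup.mem_sup.1 (show T (g ^ n) a ∈ B ⊔ L3_W T g A0 n from ha2)
  rw [← hbc, map_add]
  have h2 := hn.conj_mem h hh (g ^ n)
  exact AddSubgroup.add_mem _ (AddSubgroup.mem_sup_left (hB _ h2 b hb))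
    (AddSubgroup.mem_sup_right (L3_W_St hT hn g hA0 n _ h2 c hc))

private theorem L3_L_succ {T : Γ → A →+ A} (hT : L3_Act T) (g : Γ) (A0 : AddSubgroup A) (n : ℕ)
    {B : AddSubgroup A} (hB : ∀ b ∈ B, T g b ∈ B) :
    L3_L T g A0 n B ≤ L3_L T g A0 (n + 1) B := by
  rintro a ⟨ha1, ha2⟩
  refine ⟨ha1, ?_⟩
  show T (g ^ (n + 1)) a ∈ B ⊔ L3_W T g A0 (n + 1)
  obtain ⟨b, hb, c, hc, hbc⟩ := AddSubgroup.mem_sup.1 (show T (g ^ n) a ∈ B ⊔ L3_W T g A0 n from ha2)
  rw [pow_succ', hT.mul, ← hbc, map_add]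
  exact AddSubgroup.add_mem _ (AddSubgroup.mem_sup_left (hB b hb))
    (AddSubgroup.mem_sup_right (L3_W_shift hT g A0 n c hc))

private theorem L3_L_mono {T : Γ → A →+ A} (hT : L3_Act T) (g : Γ) (A0 : AddSubgroup A)
    {n n' : ℕ} (hnn : n ≤ n') {B B' : AddSubgroup A} (hBB : B ≤ B')
    (hB : ∀ b ∈ B', T g b ∈ B') : L3_L T g A0 n B ≤ L3_L T g A0 n' B' := by
  have h1 : L3_L T g A0 n B ≤ L3_L T g A0 n B' := by
    apply inf_le_inf_left
    apply AddSubgroup.comap_mono
    exact sup_le_sup_right hBB _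
  refine h1.trans ?_
  induction n', hnn using Nat.le_induction with
  | base => exact le_rfl
  | succ m _ ih => exact ih.trans (L3_L_succ hT g A0 m hB)

/-- every element of the module generated over `H ⊔ zpowers g` is moved into some `W n` -/
private theorem L3_move {T : Γ → A →+ A} (hT : L3_Act T) {H : Subgroup Γ} (hn : H.Normal)
    (g : Γ) (X : Set A) : ∀ b ∈ L3_gen T (H ⊔ Subgroup.zpowers g) X,
      ∃ m n : ℕ, T (g ^ m) b ∈ L3_W T g (L3_gen T H X) n := by
  intro b hb
  refine AddSubgroup.closure_induction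
    (p := fun b _ => ∃ m n : ℕ, T (g ^ m) b ∈ L3_W T g (L3_gen T H X) n) ?_ ?_ ?_ ?_ hb
  · rintro _ ⟨h', hh', x, hx, rfl⟩
    have := hn
    obtain ⟨h, hh, z, hz, rfl⟩ := Subgroup.mem_sup_of_normal_left.1 hh'
    obtain ⟨k, rfl⟩ := Subgroup.mem_zpowers_iff.1 hz
    -- h * g^k = g^k * (g^-k h g^k)
    have h1 : g ^ (-k) * h * g ^ k ∈ H := by
      have := hn.conj_mem h hh (g ^ (-k))
      rwa [← zpow_neg, neg_neg] at this
    refine ⟨k.natAbs, (k.natAbs + k).toNat + 1, ?_⟩
    refine AddSubgroup.mem_sup_right ⟨T (g ^ (-k) * h * g ^ k) x,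
      AddSubgroup.subset_closure ⟨_, h1, x, hx, rfl⟩, ?_⟩
    show T (g ^ ((k.natAbs + k).toNat)) (T (g ^ (-k) * h * g ^ k) x) = T (g ^ k.natAbs) (T (h * g ^ k) x)
    rw [← hT.mul, ← hT.mul]
    congr 1
    have h2 : (((k.natAbs : ℤ) + k).toNat : ℤ) = k.natAbs + k := by
      apply Int.toNat_of_nonneg
      omega
    rw [← zpow_natCast g (((k.natAbs : ℤ) + k).toNat), h2, ← zpow_natCast g k.natAbs, zpow_add]
    group
  · exact ⟨0, 0, by rw [map_zero]; exact AddSubgroup.zero_mem _⟩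
  · rintro a b _ _ ⟨m, n, h1⟩ ⟨m', n', h2⟩
    refine ⟨m + m', max (n + m') (n' + m), ?_⟩
    rw [map_add]
    refine AddSubgroup.add_mem _ ?_ ?_
    · rw [add_comm m m', pow_add, hT.mul]
      exact L3_W_mono g _ (le_max_left _ _) (L3_W_shift' hT g _ n m' _ h1)
    · rw [pow_add, hT.mul]
      exact L3_W_mono g _ (le_max_right _ _) (L3_W_shift' hT g _ n' m _ h2)
  · rintro a _ ⟨m, n, h1⟩
    refine ⟨m, n, ?_⟩
    rw [map_neg]
    exact AddSubgroup.neg_mem _ h1

private theorem L3_step {T : Γ → A →+ A} (hT : L3_Act T) {H : Subgroup Γ} (hn : H.Normal)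
    (g : Γ) (hN : L3_N T H) : L3_N T (H ⊔ Subgroup.zpowers g) := by
  intro X hX f hf hst hle
  set A0 := L3_gen T H X with hA0
  have hA0s : L3_St T H A0 := L3_gen_St hT H X
  have hgH : g ∈ H ⊔ Subgroup.zpowers g :=
    (le_sup_right : Subgroup.zpowers g ≤ _) (Subgroup.mem_zpowers g)
  have hg : ∀ i, ∀ b ∈ f i, T g b ∈ f i := fun i b hb => hst i g hgH b hb
  have hsH : ∀ i, L3_St T H (f i) := fun i h hh b hb =>
    hst i h ((le_sup_left : H ≤ _) hh) b hb
  -- the diagonal
  obtain ⟨n0, hn0⟩ := hN X hX (fun i => L3_L T g A0 i (f i))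
    (fun i j hij => L3_L_mono hT g A0 hij (hf hij) (hg j))
    (fun i => L3_L_St hT hn g hA0s i (hsH i)) (fun i => inf_le_left)
  -- the rows
  have hrow : ∀ n : ℕ, ∃ j0, ∀ j, j0 ≤ j → L3_L T g A0 n (f j) = L3_L T g A0 n (f j0) := by
    intro n
    exact hN X hX (fun j => L3_L T g A0 n (f j))
      (fun i j hij => L3_L_mono hT g A0 le_rfl (hf hij) (hg j))
      (fun i => L3_L_St hT hn g hA0s n (hsH i)) (fun i => inf_le_left)
  choose j0 hj0 using hrow
  set J := max n0 ((Finset.range n0).sup j0) with hJ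
  have hconst : ∀ n j : ℕ, J ≤ j → L3_L T g A0 n (f j) = L3_L T g A0 n (f J) := by
    intro n j hj
    rcases lt_or_ge n n0 with h | h
    · have h1 : j0 n ≤ J :=
        (Finset.le_sup (f := j0) (Finset.mem_range.2 h)).trans (le_max_right _ _)
      rw [hj0 n j (h1.trans hj), hj0 n J h1]
    · have h2 : ∀ j', n0 ≤ j' → L3_L T g A0 n (f j') = L3_L T g A0 n0 (f n0) := by
        intro j' hj'
        apply le_antisymm
        · have h3 : L3_L T g A0 n (f j') ≤ L3_L T g A0 (max n j') (f (max n j')) :=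
            L3_L_mono hT g A0 (le_max_left _ _) (hf (le_max_right _ _)) (hg _)
          exact h3.trans (hn0 (max n j') (h.trans (le_max_left _ _))).le
        · exact L3_L_mono hT g A0 h (hf hj') (hg _)
      rw [h2 j ((le_max_left _ _).trans hj), h2 J (le_max_left _ _)]
  have hclaim : ∀ n j : ℕ, J ≤ j → ∀ b ∈ f j, b ∈ L3_W T g A0 n → b ∈ f J := by
    intro n
    induction n with
    | zero =>
      intro j _ b _ hb
      have : b = 0 := hb
      rw [this]
      exact AddSubgroup.zero_mem _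
    | succ n ih =>
      intro j hj b hb hbW
      obtain ⟨a', ha', c, hc, rfl⟩ := AddSubgroup.mem_sup.1 hbW
      obtain ⟨a, ha, rfl⟩ := hc
      have h1 : a ∈ L3_L T g A0 n (f j) := by
        refine ⟨ha, ?_⟩
        show T (g ^ n) a ∈ f j ⊔ L3_W T g A0 n
        have h2 : T (g ^ n) a = (a' + T (g ^ n) a) + (-a') := by abel
        rw [h2]
        exact AddSubgroup.add_mem _ (AddSubgroup.mem_sup_left hb)
          (AddSubgroup.mem_sup_right (AddSubgroup.neg_mem _ ha'))
      rw [hconst n j hj] at h1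
      obtain ⟨b', hb', a'', ha'', h3⟩ := AddSubgroup.mem_sup.1
        (show T (g ^ n) a ∈ f J ⊔ L3_W T g A0 n from h1.2)
      have h4 : a' + a'' ∈ f J := by
        apply ih j hj
        · have h5 : a' + a'' = (a' + T (g ^ n) a) - b' := by rw [← h3]; abel
          rw [h5]
          exact AddSubgroup.sub_mem _ hb (hf hj hb')
        · exact AddSubgroup.add_mem _ ha' ha''
      have h6 : a' + T (g ^ n) a = (a' + a'') + b' := by rw [← h3]; abel
      show a' + T (g ^ n) a ∈ f J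
      rw [h6]
      exact AddSubgroup.add_mem _ h4 hb'
  refine ⟨J, fun m hm => le_antisymm ?_ (hf hm)⟩
  intro b hb
  obtain ⟨r, n, hr⟩ := L3_move hT hn g X b (hle m hb)
  have hgr : g ^ r ∈ H ⊔ Subgroup.zpowers g := Subgroup.pow_mem _ hgH r
  have h1 : T (g ^ r) b ∈ f J := hclaim n m hm _ (hst m _ hgr b hb) hr
  have h2 := hst J _ (Subgroup.inv_mem _ hgr) _ h1
  rwa [← hT.mul, inv_mul_cancel, hT.one] at h2

private theorem L3_chain {T : Γ → A →+ A} (hT : L3_Act T) (K : Subgroup Γ)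
    (hK : ∀ k ∈ K, ∀ a, T k a = a) (H : Subgroup Γ) (hch : Chain K H) : L3_N T H := by
  induction hch with
  | base => exact L3_base K hK
  | step H g _ hn _ ih => exact L3_step hT hn g ih

end L3aux

theorem L3 {Γ A : Type} [Group Γ] [AddCommGroup A] [Module (MonoidAlgebra ℤ Γ) A] (K : Subgroup Γ)
    (hch : Chain K ⊤) (hK : ∀ k ∈ K, ∀ a : A, MonoidAlgebra.of ℤ Γ k • a = a)
    (hfin : Module.Finite (MonoidAlgebra ℤ Γ) A) : IsNoetherian (MonoidAlgebra ℤ Γ) A := by
  let T : Γ → A →+ A := fun g => DistribSMul.toAddMonoidHom A (MonoidAlgebra.of ℤ Γ g)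
  have hT' : ∀ g a, T g a = MonoidAlgebra.of ℤ Γ g • a := fun g a => rfl
  have hT : L3_Act T := by
    refine ⟨fun g h a => ?_, fun a => ?_⟩
    · rw [hT', hT', hT', map_mul, mul_smul]
    · rw [hT', map_one, one_smul]
  have hN := L3_chain hT K hK ⊤ hch
  obtain ⟨S, hS⟩ := hfin.fg_top
  have htop : ∀ a : A, a ∈ L3_gen T ⊤ (S : Set A) := by
    let M : Submodule (MonoidAlgebra ℤ Γ) A :=
      { carrier := L3_gen T ⊤ (S : Set A)
        add_mem' := fun ha hb => AddSubgroup.add_mem _ ha hb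
        zero_mem' := AddSubgroup.zero_mem _
        smul_mem' := by
          intro r a ha
          induction r using MonoidAlgebra.induction_on with
          | of g =>
            exact L3_gen_St hT ⊤ _ g trivial a ha
          | add x y hx hy =>
            rw [add_smul]
            exact AddSubgroup.add_mem _ hx hy
          | smul r x hx =>
            have h1 : (r • x) • a = r • (x • a) := smul_assoc r x a
            rw [h1]
            exact AddSubgroup.zsmul_mem _ hx r }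
    have h1 : (⊤ : Submodule (MonoidAlgebra ℤ Γ) A) ≤ M := by
      rw [← hS, Submodule.span_le]
      intro x hx
      refine AddSubgroup.subset_closure ⟨1, trivial, x, hx, ?_⟩
      rw [hT.one]
    intro a
    exact h1 trivial
  rw [← monotone_stabilizes_iff_noetherian]
  intro f
  obtain ⟨n, hn⟩ := hN S S.finite_toSet (fun i => (f i).toAddSubgroup)
    (fun i j hij x hx => f.monotone hij hx)
    (fun i h _ b hb => (f i).smul_mem _ hb) (fun i x _ => htop x)
  refine ⟨n, fun m hm => ?_⟩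
  have h1 := hn m hm
  apply le_antisymm
  · exact f.monotone hm
  · intro x hx
    have h2 : x ∈ (f n).toAddSubgroup := by
      have h3 : x ∈ (f m).toAddSubgroup := hx
      rw [h1] at h3
      exact h3
    exact h2

end Pool.Agent.LibPF5
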