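import Pool.Agent.LibPF5.Defs

/-!
Row L4 (MEDIUM). In a noetherian module over `Z[Γ]`, with a chain from the trivially acting subgroup `K` to `Γ`, no non-zero fixed
element lies in all `I^k A`.

PLAN. Write `g • a` for `MonoidAlgebra.of ℤ Γ g • a`, `R = MonoidAlgebra ℤ Γ`.
(a) Main claim `Q(H)`, for all modules: if `A` is noetherian, `z ∈ A` is fixed and every non-zero submodule of `A` contains `z`, and `H` acts trivially
on `A`, then `Ipow Γ A k = ⊥` for some `k`. `Q(⊤)`: all `g • a - a = 0`, so `k = 1`. `Q(H ⊔ zpowers g) → Q(H)` when `H` is normal and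
`[g,x] ∈ H` for all `x`: `u a := g • a - a` is `R`-linear (`x g = [x,g] g x` and `H` acts trivially; it is enough to commute with `of x` and with
integers: `MonoidAlgebra.induction_on` / `Finsupp`), `u : Module.End R A`.
`LinearMap.eventually_disjoint_ker_pow_range_pow`: some `n ≥ 1` with `ker (u^n)` and `range (u^n)` disjoint. `z ∈ ker u^n`, so `range (u^n)` does not contain
a non-zero element: if it is non-zero it contains `z`, `z = 0`, and then every submodule... (if `z = 0` take `A` itself: if `A ≠ 0`... note: the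
hypothesis `z ≠ 0` is part of the claim; if `A` is subsingleton `z ≠ 0` fails). So `u^n = 0`.
Inner induction on `n` (for all such modules `A` with `H` trivial and `u^n = 0`): `n = 1`: `g` and `H` act trivially, so `H ⊔ zpowers g` acts
trivially: `Q(H ⊔ zpowers g)`. `n + 1`: the submodule `A' = range u`: if it is `⊥`, case `n = 1`. Otherwise it is non-zero, contains `z`, every
non-zero submodule of it contains `z`, `u^n = 0` on it: `Ipow Γ A' k = ⊥`. So `u (Ipow Γ A k) = Ipow Γ A' k`-part `= 0` (image of `Ipow` under the surjection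
`A → A'` is `Ipow`), i.e. `Ipow Γ A k ≤ ker u`. `ker u` is a submodule with `g` and `H` trivial, it contains `z`: `Ipow Γ (ker u) l = ⊥` and
`Ipow Γ A (k + l) ≤` image of `Ipow Γ (ker u) l`.
(b) By induction on `Chain K H`: `Q(H) → Q(K)`.
(c) Given `z ≠ 0` fixed in all `Ipow Γ A k`: by noetherianity choose `C` maximal among the submodules not containing `z`. In `A ⧸ C` every non-zero
submodule contains the image of `z`, which is non-zero and fixed; `K` acts trivially; so `Ipow Γ (A ⧸ C) k = ⊥`, but the image of `z` lies in the image of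
`Ipow Γ A k`, which is `Ipow Γ (A ⧸ C) k`. Contradiction.
Useful: `Ipow` is compatible with surjective linear maps (`Submodule.map`), by induction and `Submodule.map_span`.
-/

set_option autoImplicit false

namespace Pool.Agent.LibPF5

section L4aux

open scoped commutatorElement

variable {Γ : Type} [Group Γ]

private theorem L4_succ (A : Type) [AddCommGroup A] [Module (MonoidAlgebra ℤ Γ) A] (k : ℕ) :
    Ipow Γ A (k + 1) = Submodule.span _
      {x | ∃ g : Γ, ∃ a ∈ Ipow Γ A k, x = MonoidAlgebra.of ℤ Γ g • a - a} := rfl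

private theorem L4_map {A B : Type} [AddCommGroup A] [Module (MonoidAlgebra ℤ Γ) A]
    [AddCommGroup B] [Module (MonoidAlgebra ℤ Γ) B] (f : A →ₗ[MonoidAlgebra ℤ Γ] B)
    (hf : Function.Surjective f) (k : ℕ) : Ipow Γ B k = (Ipow Γ A k).map f := by
  induction k with
  | zero =>
    change (⊤ : Submodule (MonoidAlgebra ℤ Γ) B) = Submodule.map f ⊤
    rw [Submodule.map_top, LinearMap.range_eq_top.2 hf]
  | succ k ih =>
    rw [L4_succ, L4_succ, Submodule.map_span]
    congr 1
    ext x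
    constructor
    · rintro ⟨g, b, hb, rfl⟩
      rw [ih] at hb
      obtain ⟨a, ha, rfl⟩ := hb
      exact ⟨MonoidAlgebra.of ℤ Γ g • a - a, ⟨g, a, ha, rfl⟩, by rw [map_sub, map_smul]⟩
    · rintro ⟨y, ⟨g, a, ha, rfl⟩, rfl⟩
      refine ⟨g, f a, ?_, by rw [map_sub, map_smul]⟩
      rw [ih]
      exact ⟨a, ha, rfl⟩

private theorem L4_sub {A : Type} [AddCommGroup A] [Module (MonoidAlgebra ℤ Γ) A]
    (N : Submodule (MonoidAlgebra ℤ Γ) A) {k : ℕ} (hk : Ipow Γ A k ≤ N) (l : ℕ) :
    Ipow Γ A (k + l) ≤ (Ipow Γ N l).map N.subtype := by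
  induction l with
  | zero =>
    change Ipow Γ A k ≤ Submodule.map N.subtype ⊤
    rw [Submodule.map_top, Submodule.range_subtype]
    exact hk
  | succ l ih =>
    rw [← add_assoc, L4_succ, Submodule.span_le]
    rintro x ⟨g, a, ha, rfl⟩
    obtain ⟨b, hb, rfl⟩ := ih ha
    refine ⟨MonoidAlgebra.of ℤ Γ g • b - b, ?_, by rw [map_sub, map_smul]⟩
    rw [L4_succ]
    exact Submodule.subset_span ⟨g, b, hb, rfl⟩

/-- the subgroup of the elements which act trivially. -/
private def L4_stab (Γ : Type) [Group Γ] (A : Type) [AddCommGroup A]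
    [Module (MonoidAlgebra ℤ Γ) A] : Subgroup Γ where
  carrier := {x | ∀ a : A, MonoidAlgebra.of ℤ Γ x • a = a}
  mul_mem' := by
    intro x y hx hy a
    rw [map_mul, mul_smul, hy, hx]
  one_mem' := by
    intro a
    rw [map_one, one_smul]
  inv_mem' := by
    intro x hx a
    have h := hx (MonoidAlgebra.of ℤ Γ x⁻¹ • a)
    rw [← mul_smul, ← map_mul, mul_inv_cancel, map_one, one_smul] at h
    exact h.symm

private theorem L4_triv {A : Type} [AddCommGroup A] [Module (MonoidAlgebra ℤ Γ) A]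
    {H : Subgroup Γ} {g : Γ} (hH : ∀ h ∈ H, ∀ a : A, MonoidAlgebra.of ℤ Γ h • a = a)
    (hg : ∀ a : A, MonoidAlgebra.of ℤ Γ g • a = a) :
    ∀ h ∈ H ⊔ Subgroup.zpowers g, ∀ a : A, MonoidAlgebra.of ℤ Γ h • a = a := by
  have h1 : H ⊔ Subgroup.zpowers g ≤ L4_stab Γ A := by
    refine sup_le (fun h hh => hH h hh) ?_
    rw [Subgroup.zpowers_le]
    exact hg
  exact fun h hh => h1 hh

private def L4_Q (H : Subgroup Γ) : Prop :=
  ∀ (A : Type) [AddCommGroup A] [Module (MonoidAlgebra ℤ Γ) A] [IsNoetherian (MonoidAlgebra ℤ Γ) A]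
    (z : A), z ≠ 0 → (∀ g : Γ, MonoidAlgebra.of ℤ Γ g • z = z) →
    (∀ S : Submodule (MonoidAlgebra ℤ Γ) A, S ≠ ⊥ → z ∈ S) →
    (∀ h ∈ H, ∀ a : A, MonoidAlgebra.of ℤ Γ h • a = a) → ∃ k, Ipow Γ A k = ⊥

private theorem L4_top : L4_Q (⊤ : Subgroup Γ) := by
  intro A _ _ _ z _ _ _ h
  refine ⟨1, ?_⟩
  rw [L4_succ, Submodule.span_eq_bot]
  rintro x ⟨g, a, -, rfl⟩
  rw [h g (Subgroup.mem_top g), sub_self]

private theorem L4_comm {A : Type} [AddCommGroup A] [Module (MonoidAlgebra ℤ Γ) A]
    {H : Subgroup Γ} {g : Γ} (hg : ∀ x, ⁅g, x⁆ ∈ H)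
    (hH : ∀ h ∈ H, ∀ a : A, MonoidAlgebra.of ℤ Γ h • a = a) (r : MonoidAlgebra ℤ Γ) :
    ∀ a : A, MonoidAlgebra.of ℤ Γ g • r • a = r • MonoidAlgebra.of ℤ Γ g • a := by
  refine MonoidAlgebra.induction_on (motive := fun r => ∀ a : A,
    MonoidAlgebra.of ℤ Γ g • r • a = r • MonoidAlgebra.of ℤ Γ g • a) r ?_ ?_ ?_
  · intro x a
    rw [← mul_smul, ← mul_smul, ← map_mul, ← map_mul]
    have h : g * x = ⁅g, x⁆ * (x * g) := by
      rw [commutatorElement_def]
      group
    rw [h, map_mul, mul_smul, hH _ (hg x)]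
  · intro f f' hf hf' a
    rw [add_smul, add_smul, smul_add, hf, hf']
  · intro n f hf a
    rw [smul_assoc, smul_assoc, ← hf a]
    exact map_zsmul (DistribSMul.toAddMonoidHom A (MonoidAlgebra.of ℤ Γ g)) n (f • a)

/-- the endomorphism `g - 1`. -/
private noncomputable def L4_u {A : Type} [AddCommGroup A] [Module (MonoidAlgebra ℤ Γ) A]
    {H : Subgroup Γ} {g : Γ} (hg : ∀ x, ⁅g, x⁆ ∈ H)
    (hH : ∀ h ∈ H, ∀ a : A, MonoidAlgebra.of ℤ Γ h • a = a) :
    Module.End (MonoidAlgebra ℤ Γ) A where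
  toFun a := MonoidAlgebra.of ℤ Γ g • a - a
  map_add' a b := by
    rw [smul_add]
    abel
  map_smul' r a := by
    rw [RingHom.id_apply, smul_sub, L4_comm hg hH]

private theorem L4_inner {H : Subgroup Γ} {g : Γ} (hg : ∀ x, ⁅g, x⁆ ∈ H)
    (hQ : L4_Q (H ⊔ Subgroup.zpowers g)) (n : ℕ) :
    ∀ (A : Type) [AddCommGroup A] [Module (MonoidAlgebra ℤ Γ) A]
      [IsNoetherian (MonoidAlgebra ℤ Γ) A]
      (z : A), z ≠ 0 → (∀ g : Γ, MonoidAlgebra.of ℤ Γ g • z = z) →
      (∀ S : Submodule (MonoidAlgebra ℤ Γ) A, S ≠ ⊥ → z ∈ S) →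
      (∀ h ∈ H, ∀ a : A, MonoidAlgebra.of ℤ Γ h • a = a) →
      (∀ a : A, (fun a : A => MonoidAlgebra.of ℤ Γ g • a - a)^[n] a = 0) →
      ∃ k, Ipow Γ A k = ⊥ := by
  induction n with
  | zero =>
    intro A _ _ _ z hz _ _ _ hn
    exact absurd (hn z) hz
  | succ n ih =>
    intro A _ _ _ z hz hfix hS hH hn
    obtain ⟨u, hu⟩ : ∃ u : Module.End (MonoidAlgebra ℤ Γ) A,
        ∀ a, u a = MonoidAlgebra.of ℤ Γ g • a - a := ⟨L4_u hg hH, fun _ => rfl⟩
    by_cases hr : LinearMap.range u = ⊥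
    · refine hQ A z hz hfix hS (L4_triv hH fun a => ?_)
      have h1 : u a ∈ LinearMap.range u := ⟨a, rfl⟩
      rw [hr, Submodule.mem_bot, hu] at h1
      exact sub_eq_zero.1 h1
    · have hzr : z ∈ LinearMap.range u := hS _ hr
      have hSr : ∀ S : Submodule (MonoidAlgebra ℤ Γ) (LinearMap.range u), S ≠ ⊥ →
          (⟨z, hzr⟩ : LinearMap.range u) ∈ S := by
        intro S hSne
        have h3 : z ∈ S.map (LinearMap.range u).subtype := by
          apply hS
          intro h
          exact hSne (Submodule.map_injective_of_injective (Submodule.subtype_injective _)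
            (h.trans (Submodule.map_bot _).symm))
        obtain ⟨y, hy, hyz⟩ := h3
        have : y = ⟨z, hzr⟩ := Subtype.ext hyz
        rwa [← this]
      have hnr : ∀ b : LinearMap.range u,
          (fun a : LinearMap.range u => MonoidAlgebra.of ℤ Γ g • a - a)^[n] b = 0 := by
        rintro ⟨a', a, rfl⟩
        have key : ∀ (m : ℕ) (b : LinearMap.range u),
            (((fun a : LinearMap.range u => MonoidAlgebra.of ℤ Γ g • a - a)^[m] b :
              LinearMap.range u) : A) =
            (fun a : A => MonoidAlgebra.of ℤ Γ g • a - a)^[m] (b : A) := by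
          intro m
          induction m with
          | zero => exact fun _ => rfl
          | succ m ihm =>
            intro b
            rw [Function.iterate_succ_apply, Function.iterate_succ_apply, ihm]
            rfl
        apply Subtype.ext
        rw [key]
        have h5 := hn a
        rw [Function.iterate_succ_apply, ← hu] at h5
        exact h5
      obtain ⟨k, hk⟩ := ih (LinearMap.range u) ⟨z, hzr⟩
        (fun h => hz (congrArg Subtype.val h)) (fun x => Subtype.ext (hfix x)) hSr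
        (fun h hh a => Subtype.ext (hH h hh a)) hnr
      have hker : Ipow Γ A k ≤ LinearMap.ker u := by
        intro a ha
        have h1 : u.rangeRestrict a ∈ Ipow Γ (LinearMap.range u) k := by
          rw [L4_map u.rangeRestrict u.surjective_rangeRestrict k]
          exact ⟨a, ha, rfl⟩
        rw [hk, Submodule.mem_bot] at h1
        exact congrArg Subtype.val h1
      have hzk : z ∈ LinearMap.ker u := by
        rw [LinearMap.mem_ker, hu, hfix, sub_self]
      have hSk : ∀ S : Submodule (MonoidAlgebra ℤ Γ) (LinearMap.ker u), S ≠ ⊥ →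
          (⟨z, hzk⟩ : LinearMap.ker u) ∈ S := by
        intro S hSne
        have h3 : z ∈ S.map (LinearMap.ker u).subtype := by
          apply hS
          intro h
          exact hSne (Submodule.map_injective_of_injective (Submodule.subtype_injective _)
            (h.trans (Submodule.map_bot _).symm))
        obtain ⟨y, hy, hyz⟩ := h3
        have : y = ⟨z, hzk⟩ := Subtype.ext hyz
        rwa [← this]
      have hgk : ∀ a : LinearMap.ker u, MonoidAlgebra.of ℤ Γ g • a = a := by
        intro a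
        have h4 := a.2
        rw [LinearMap.mem_ker, hu] at h4
        exact Subtype.ext (sub_eq_zero.1 h4)
      obtain ⟨l, hl⟩ := hQ (LinearMap.ker u) ⟨z, hzk⟩
        (fun h => hz (congrArg Subtype.val h)) (fun x => Subtype.ext (hfix x)) hSk
        (L4_triv (fun h hh a => Subtype.ext (hH h hh a)) hgk)
      refine ⟨k + l, ?_⟩
      have h2 := L4_sub (LinearMap.ker u) hker l
      rw [hl, Submodule.map_bot] at h2
      exact le_bot_iff.1 h2

private theorem L4_step {H : Subgroup Γ} {g : Γ} (hg : ∀ x, ⁅g, x⁆ ∈ H)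
    (hQ : L4_Q (H ⊔ Subgroup.zpowers g)) : L4_Q H := by
  intro A _ _ _ z hz hfix hS hH
  obtain ⟨u, hu⟩ : ∃ u : Module.End (MonoidAlgebra ℤ Γ) A,
      ∀ a, u a = MonoidAlgebra.of ℤ Γ g • a - a := ⟨L4_u hg hH, fun _ => rfl⟩
  obtain ⟨n, hn, hn1⟩ := ((u.eventually_disjoint_ker_pow_range_pow).and
    (Filter.eventually_ge_atTop 1)).exists
  have hzu : u z = 0 := by rw [hu, hfix, sub_self]
  have hzn : (u ^ n) z = 0 := by
    obtain ⟨m, rfl⟩ : ∃ m, n = m + 1 := ⟨n - 1, by omega⟩
    rw [pow_succ, Module.End.mul_apply, hzu, map_zero]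
  have hr : LinearMap.range (u ^ n) = ⊥ := by
    by_contra hne
    have h1 : z ∈ LinearMap.range (u ^ n) := hS _ hne
    have h2 : z ∈ LinearMap.ker (u ^ n) := hzn
    have h3 := Submodule.disjoint_def.1 hn z h2 h1
    exact hz h3
  refine L4_inner hg hQ n A z hz hfix hS hH fun a => ?_
  have h4 : (u ^ n) a ∈ LinearMap.range (u ^ n) := ⟨a, rfl⟩
  rw [hr, Submodule.mem_bot, Module.End.pow_apply] at h4
  have h5 : (fun a : A => MonoidAlgebra.of ℤ Γ g • a - a) = (u : A → A) := by
    funext a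
    exact (hu a).symm
  rw [h5]
  exact h4

private theorem L4_chain {K H : Subgroup Γ} (hc : Chain K H) : L4_Q H → L4_Q K := by
  induction hc with
  | base => exact id
  | step H g hc hn hg ih => exact fun h => ih (L4_step hg h)

end L4aux

theorem L4 {Γ A : Type} [Group Γ] [AddCommGroup A] [Module (MonoidAlgebra ℤ Γ) A]
    [IsNoetherian (MonoidAlgebra ℤ Γ) A] (K : Subgroup Γ) (hch : Chain K ⊤)
    (hK : ∀ k ∈ K, ∀ a : A, MonoidAlgebra.of ℤ Γ k • a = a) (z : A)
    (hz : ∀ g : Γ, MonoidAlgebra.of ℤ Γ g • z = z) (hzI : ∀ k, z ∈ Ipow Γ A k) : z = 0 := by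
  by_contra hz0
  obtain ⟨C, hC, hmax⟩ := set_has_maximal_iff_noetherian.2
    (inferInstance : IsNoetherian (MonoidAlgebra ℤ Γ) A) {C | z ∉ C} ⟨⊥, hz0⟩
  have hzq : C.mkQ z ≠ 0 := by
    rw [Submodule.mkQ_apply, Ne, Submodule.Quotient.mk_eq_zero]
    exact hC
  have hSq : ∀ S : Submodule (MonoidAlgebra ℤ Γ) (A ⧸ C), S ≠ ⊥ → C.mkQ z ∈ S := by
    intro S hS
    by_contra hcon
    refine hmax (S.comap C.mkQ) hcon (lt_of_le_of_ne ?_ ?_)
    · intro a ha
      rw [Submodule.mem_comap, Submodule.mkQ_apply, (Submodule.Quotient.mk_eq_zero C).2 ha]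
      exact zero_mem S
    · intro heq
      apply hS
      rw [eq_bot_iff]
      intro y hy
      obtain ⟨a, rfl⟩ := Submodule.mkQ_surjective C y
      have h2 : a ∈ S.comap C.mkQ := hy
      rw [← heq] at h2
      rw [Submodule.mem_bot, Submodule.mkQ_apply]
      exact (Submodule.Quotient.mk_eq_zero C).2 h2
  have hKq : ∀ h ∈ K, ∀ y : A ⧸ C, MonoidAlgebra.of ℤ Γ h • y = y := by
    intro h hh y
    obtain ⟨a, rfl⟩ := Submodule.mkQ_surjective C y
    rw [← map_smul, hK h hh]
  obtain ⟨k, hk⟩ := L4_chain hch L4_top (A ⧸ C) (C.mkQ z) hzq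
    (fun g => by rw [← map_smul, hz]) hSq hKq
  have h1 : C.mkQ z ∈ Ipow Γ (A ⧸ C) k := by
    rw [L4_map C.mkQ (Submodule.mkQ_surjective C) k]
    exact ⟨z, hzI k, rfl⟩
  rw [hk, Submodule.mem_bot] at h1
  exact hzq h1

end Pool.Agent.LibPF5
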