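import Pool.Agent.LibPF5.Defs

/-!
Row L5 (SHORT/MEDIUM). The abelianisation of a normal subgroup as a module over the group ring.

PLAN. `A := Additive (Abelianization N)`. `Γ` acts on `N` by `MulAut.conjNormal : Γ →* MulAut N`, hence on `Abelianization N`
(`MulEquiv.abelianizationCongr` or `Abelianization.map`), hence additive automorphisms of `A`: a `Representation ℤ Γ A`
(`ρ g : A →ₗ[ℤ] A`); the module is `ρ.asModule` (use the type `A := ρ.asModule`, `Representation.asModule`, with
`Representation.asModuleEquiv`, `Representation.single_smul` / `of_smul`), or define the ring homomorphism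
`MonoidAlgebra.lift ℤ Γ (AddMonoid.End A or Module.End ℤ A)` and `Module.compHom`. `π a := ofMul (Abelianization.of a)`;
`π a = 0 ↔ a ∈ commutator N ↔ (a : Γ) ∈ ⁅N, N⁆` (`Abelianization.ker_of`, `Subgroup.map_subtype_commutator`).
-/

set_option autoImplicit false

namespace Pool.Agent.LibPF5

private noncomputable def L5_rep {Γ : Type} [Group Γ] (N : Subgroup Γ) [N.Normal] :
    Representation ℤ Γ (Additive (Abelianization N)) where
  toFun g := (MonoidHom.toAdditive
    (Abelianization.map (MulAut.conjNormal g : MulAut N).toMonoidHom)).toIntLinearMap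
  map_one' := by
    apply LinearMap.ext
    intro x
    change Additive.ofMul (Abelianization.map (MulAut.conjNormal (1 : Γ) : MulAut N).toMonoidHom
      x.toMul) = x
    obtain ⟨a, ha⟩ := QuotientGroup.mk_surjective x.toMul
    have ha' : x.toMul = Abelianization.of a := ha.symm
    rw [ha', Abelianization.map_of, map_one]
    exact congrArg Additive.ofMul ha'.symm
  map_mul' g h := by
    apply LinearMap.ext
    intro x
    change Additive.ofMul (Abelianization.map (MulAut.conjNormal (g * h) : MulAut N).toMonoidHom
      x.toMul) = Additive.ofMul (Abelianization.map (MulAut.conjNormal g : MulAut N).toMonoidHom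
        (Abelianization.map (MulAut.conjNormal h : MulAut N).toMonoidHom x.toMul))
    obtain ⟨a, ha⟩ := QuotientGroup.mk_surjective x.toMul
    have ha' : x.toMul = Abelianization.of a := ha.symm
    rw [ha', Abelianization.map_of, Abelianization.map_of, Abelianization.map_of, map_mul]
    rfl

private theorem L5_rep_of {Γ : Type} [Group Γ] (N : Subgroup Γ) [N.Normal] (g : Γ) (a : N) :
    L5_rep N g (Additive.ofMul (Abelianization.of a)) =
      Additive.ofMul (Abelianization.of ((MulAut.conjNormal g : MulAut N) a)) := rfl

theorem L5 {Γ : Type} [Group Γ] (N : Subgroup Γ) (hN : N.Normal) :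
    ∃ (A : Type) (_ : AddCommGroup A) (_ : Module (MonoidAlgebra ℤ Γ) A) (π : N → A),
      Function.Surjective π ∧ (∀ a b, π (a * b) = π a + π b) ∧
      (∀ a : N, π a = 0 ↔ (a : Γ) ∈ ⁅N, N⁆) ∧
      ∀ (g : Γ) (a : N), π ⟨g * a * g⁻¹, hN.conj_mem a a.2 g⟩ = MonoidAlgebra.of ℤ Γ g • π a := by
  refine ⟨(L5_rep N).asModule, inferInstance, inferInstance,
    fun a => (L5_rep N).asModuleEquiv.symm (Additive.ofMul (Abelianization.of a)), ?_, ?_, ?_, ?_⟩
  · intro x
    obtain ⟨a, ha⟩ := QuotientGroup.mk_surjective ((L5_rep N).asModuleEquiv x).toMul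
    refine ⟨a, ?_⟩
    change (L5_rep N).asModuleEquiv.symm (Additive.ofMul (Abelianization.of a)) = x
    rw [LinearEquiv.symm_apply_eq]
    exact congrArg Additive.ofMul ha
  · intro a b
    simp only
    rw [map_mul, ofMul_mul, map_add]
  · intro a
    simp only
    rw [LinearEquiv.map_eq_zero_iff, ofMul_eq_zero, ← MonoidHom.mem_ker, Abelianization.ker_of,
      ← Subgroup.map_subtype_commutator]
    constructor
    · intro h
      exact ⟨a, h, rfl⟩
    · rintro ⟨b, hb, hba⟩
      have : b = a := Subtype.ext hba
      rwa [← this]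
  · intro g a
    simp only
    rw [← (L5_rep N).asModuleEquiv_symm_map_rho, L5_rep_of]
    rfl

end Pool.Agent.LibPF5
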