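import Pool.Agent.LibPF5.L2
import Pool.Agent.LibPF5.L3
import Pool.Agent.LibPF5.L4
import Pool.Agent.LibPF5.L5

/-!
Row L6 (MEDIUM). In a f.g. group a central element in all terms of the lower central series lies in `[lcs m, lcs m]`, for all `m`.

PLAN. `N = lcs Γ m`, `A, π` from row L5 for `N`. `S` a finite generating set of `Γ`.
(1) `Module.Finite`: `A` is generated by the `π w`, `w ∈ Wt S m` (finite, row L1fin; `w ∈ lcs Γ m`): the set of `a ∈ N` (as elements of `Γ`) with `π a` in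
the span of these is a normal subgroup of `Γ` (closed under products, inverses, conjugation: the last clause of L5) containing `Wt S m`, so it
contains `normalClosure (Wt S m) = N` (row L1).
(2) `N` acts trivially on `A`: `n a n⁻¹ = [n,a] a` with `[n,a] ∈ ⁅N,N⁆`. Rows L2, L3: `A` is noetherian.
(3) for `x ∈ lcs Γ (m + k)` (`≤ N` by antitonicity) `π x ∈ Ipow Γ A k`: induction on `k`: `lcs Γ (m+k+1) = ⁅lcs Γ (m+k), ⊤⁆` is generated by
`⁅x, g⁆ = x * (g x⁻¹ g⁻¹)`, `π` of it is `π x - g • π x = -(g • π x - π x)`; `Subgroup.closure_induction` (and the set of `x ∈ N` with `π x ∈ Ipow` is a subgroup).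
(4) `z` central, in all `lcs Γ n`: `g • π z = π (g z g⁻¹) = π z`, and `π z ∈ Ipow Γ A k` for all `k`; row L4: `π z = 0`, so `z ∈ ⁅N,N⁆`.
-/

set_option autoImplicit false

namespace Pool.Agent.LibPF5

private theorem L6_one {Γ A : Type} [Group Γ] [AddCommGroup A] {N : Subgroup Γ} {π : N → A}
    (hadd : ∀ a b, π (a * b) = π a + π b) : π 1 = 0 := by
  have h := hadd 1 1
  rw [one_mul] at h
  simpa using h

private theorem L6_inv {Γ A : Type} [Group Γ] [AddCommGroup A] {N : Subgroup Γ} {π : N → A}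
    (hadd : ∀ a b, π (a * b) = π a + π b) (a : N) : π a⁻¹ = -π a := by
  have h := hadd a⁻¹ a
  rw [inv_mul_cancel, L6_one hadd] at h
  exact eq_neg_of_add_eq_zero_left h.symm

/-- the elements of `N` which are mapped to the submodule `M` -/
private def L6_K {Γ A : Type} [Group Γ] [AddCommGroup A] [Module (MonoidAlgebra ℤ Γ) A]
    {N : Subgroup Γ} {π : N → A} (hadd : ∀ a b, π (a * b) = π a + π b)
    (M : Submodule (MonoidAlgebra ℤ Γ) A) : Subgroup Γ where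
  carrier := {x | ∃ hx : x ∈ N, π ⟨x, hx⟩ ∈ M}
  one_mem' := ⟨N.one_mem, by
    have h : π ⟨1, N.one_mem⟩ = 0 := L6_one hadd
    rw [h]
    exact M.zero_mem⟩
  mul_mem' := by
    rintro x y ⟨hx, hx'⟩ ⟨hy, hy'⟩
    refine ⟨N.mul_mem hx hy, ?_⟩
    have h : π ⟨x * y, N.mul_mem hx hy⟩ = π ⟨x, hx⟩ + π ⟨y, hy⟩ := hadd ⟨x, hx⟩ ⟨y, hy⟩
    rw [h]
    exact M.add_mem hx' hy'
  inv_mem' := by
    rintro x ⟨hx, hx'⟩
    refine ⟨N.inv_mem hx, ?_⟩
    have h : π ⟨x⁻¹, N.inv_mem hx⟩ = -π ⟨x, hx⟩ := L6_inv hadd ⟨x, hx⟩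
    rw [h]
    exact M.neg_mem hx'

private theorem L6_K_normal {Γ A : Type} [Group Γ] [AddCommGroup A]
    [Module (MonoidAlgebra ℤ Γ) A] {N : Subgroup Γ} (hN : N.Normal) {π : N → A}
    (hadd : ∀ a b, π (a * b) = π a + π b)
    (hact : ∀ (g : Γ) (a : N), π ⟨g * a * g⁻¹, hN.conj_mem a a.2 g⟩ =
      MonoidAlgebra.of ℤ Γ g • π a)
    (M : Submodule (MonoidAlgebra ℤ Γ) A) : (L6_K hadd M).Normal := by
  refine ⟨fun x hx g => ?_⟩
  obtain ⟨hxN, hxM⟩ := hx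
  refine ⟨hN.conj_mem x hxN g, ?_⟩
  have h := hact g ⟨x, hxN⟩
  rw [h]
  exact M.smul_mem _ hxM

private theorem L6_fin {Γ A : Type} [Group Γ] [AddCommGroup A] [Module (MonoidAlgebra ℤ Γ) A]
    (hfg : Group.FG Γ) (m : ℕ) (hN : (lcs Γ m).Normal) {π : lcs Γ m → A}
    (hsurj : Function.Surjective π) (hadd : ∀ a b, π (a * b) = π a + π b)
    (hact : ∀ (g : Γ) (a : lcs Γ m), π ⟨g * a * g⁻¹, hN.conj_mem a a.2 g⟩ =
      MonoidAlgebra.of ℤ Γ g • π a) : Module.Finite (MonoidAlgebra ℤ Γ) A := by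
  obtain ⟨S, hS, hSfin⟩ := Group.fg_iff.1 hfg
  have hWfin := L1fin S hSfin m
  have hW := L1 S hS m
  have hXfin : (π '' {w : lcs Γ m | (w : Γ) ∈ Wt S m}).Finite := by
    apply Set.Finite.image
    exact hWfin.preimage Subtype.val_injective.injOn
  refine ⟨Submodule.fg_def.2 ⟨_, hXfin, ?_⟩⟩
  rw [eq_top_iff]
  intro a _
  obtain ⟨n, rfl⟩ := hsurj a
  have hle : lcs Γ m ≤
      L6_K hadd (Submodule.span (MonoidAlgebra ℤ Γ) (π '' {w : lcs Γ m | (w : Γ) ∈ Wt S m})) := by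
    have := L6_K_normal hN hadd hact
      (Submodule.span (MonoidAlgebra ℤ Γ) (π '' {w : lcs Γ m | (w : Γ) ∈ Wt S m}))
    calc lcs Γ m = Subgroup.normalClosure (Wt S m) := hW.symm
      _ ≤ _ := Subgroup.normalClosure_le_normal (fun w hw => by
        have hwN : w ∈ lcs Γ m := by
          rw [← hW]
          exact Subgroup.subset_normalClosure hw
        exact ⟨hwN, Submodule.subset_span ⟨⟨w, hwN⟩, hw, rfl⟩⟩)
  obtain ⟨_, h⟩ := hle n.2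
  exact h

open scoped commutatorElement in
private theorem L6_pow {Γ A : Type} [Group Γ] [AddCommGroup A] [Module (MonoidAlgebra ℤ Γ) A]
    (m : ℕ) (hN : (lcs Γ m).Normal) {π : lcs Γ m → A}
    (hadd : ∀ a b, π (a * b) = π a + π b)
    (hact : ∀ (g : Γ) (a : lcs Γ m), π ⟨g * a * g⁻¹, hN.conj_mem a a.2 g⟩ =
      MonoidAlgebra.of ℤ Γ g • π a) (k : ℕ) :
    lcs Γ (m + k) ≤ L6_K hadd (Ipow Γ A k) := by
  induction k with
  | zero =>
    intro x hx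
    exact ⟨hx, Submodule.mem_top⟩
  | succ k ih =>
    show lcs Γ (m + k + 1) ≤ _
    rw [show lcs Γ (m + k + 1) = ⁅lcs Γ (m + k), (⊤ : Subgroup Γ)⁆ from rfl]
    rw [Subgroup.commutator_le]
    intro x hx g _
    obtain ⟨hxN, hxI⟩ := ih hx
    have hc : ⁅x, g⁆ = x * (g * x⁻¹ * g⁻¹) := by
      rw [commutatorElement_def]
      group
    have hgN : g * x⁻¹ * g⁻¹ ∈ lcs Γ m := hN.conj_mem _ ((lcs Γ m).inv_mem hxN) g
    rw [hc]
    refine ⟨(lcs Γ m).mul_mem hxN hgN, ?_⟩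
    have h1 : π ⟨x * (g * x⁻¹ * g⁻¹), (lcs Γ m).mul_mem hxN hgN⟩ =
        π ⟨x, hxN⟩ + π ⟨g * x⁻¹ * g⁻¹, hgN⟩ := hadd ⟨x, hxN⟩ ⟨g * x⁻¹ * g⁻¹, hgN⟩
    have h2 : π ⟨g * x⁻¹ * g⁻¹, hgN⟩ =
        MonoidAlgebra.of ℤ Γ g • π (⟨x, hxN⟩ : lcs Γ m)⁻¹ := hact g (⟨x, hxN⟩ : lcs Γ m)⁻¹
    rw [h1, h2, L6_inv hadd, smul_neg]
    have h3 : MonoidAlgebra.of ℤ Γ g • π ⟨x, hxN⟩ - π ⟨x, hxN⟩ ∈ Ipow Γ A (k + 1) :=
      Submodule.subset_span ⟨g, π ⟨x, hxN⟩, hxI, rfl⟩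
    have h4 : π ⟨x, hxN⟩ + -(MonoidAlgebra.of ℤ Γ g • π ⟨x, hxN⟩) =
        -(MonoidAlgebra.of ℤ Γ g • π ⟨x, hxN⟩ - π ⟨x, hxN⟩) := by abel
    rw [h4]
    exact Submodule.neg_mem _ h3

theorem L6 {Γ : Type} [Group Γ] (hfg : Group.FG Γ) (m : ℕ) (z : Γ) (hz : z ∈ Subgroup.center Γ)
    (hω : ∀ n, z ∈ lcs Γ n) : z ∈ ⁅lcs Γ m, lcs Γ m⁆ := by
  have hN : (lcs Γ m).Normal := inferInstance
  obtain ⟨A, _, _, π, hsurj, hadd, hker, hact⟩ := L5 (lcs Γ m) hN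
  have hK : ∀ k ∈ lcs Γ m, ∀ a : A, MonoidAlgebra.of ℤ Γ k • a = a := by
    intro k hk a
    obtain ⟨n, rfl⟩ := hsurj a
    rw [← hact k n]
    have h1 : (⟨k * n * k⁻¹, hN.conj_mem n n.2 k⟩ : lcs Γ m) = ⟨k, hk⟩ * n * ⟨k, hk⟩⁻¹ := rfl
    rw [h1, hadd, hadd, L6_inv hadd]
    abel
  have hfin := L6_fin hfg m hN hsurj hadd hact
  have hch := L2 hfg m
  have hnoeth := L3 (lcs Γ m) hch hK hfin
  have hz0 : π ⟨z, hω m⟩ = 0 := by
    refine L4 (lcs Γ m) hch hK _ (fun g => ?_) (fun k => ?_)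
    · rw [← hact g ⟨z, hω m⟩]
      congr 1
      apply Subtype.ext
      show g * z * g⁻¹ = z
      rw [Subgroup.mem_center_iff.1 hz g, mul_inv_cancel_right]
    · obtain ⟨_, h⟩ := L6_pow m hN hadd hact k (hω (m + k))
      exact h
  exact (hker _).1 hz0

end Pool.Agent.LibPF5
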