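import Pool.Agent.LibPF5.C1
import Pool.Agent.LibPF5.C2
import Pool.Agent.LibPF5.L6

/-!
Row C3 (SHORT/MEDIUM). The splitting theorem: a central extension of a f.g. parafree group `P` which splits over `lcs P m` splits.

PLAN. Parafree structure map `φ`. Row C1: `E₂, ψ`. Let `t ∈ E₂` with `q t = 1`. `t` is central in `E` hence in `E₂`. For all `n`: `t ∈ lcs E₂ n`: by row C2
`t = ψ w · g`, `g ∈ lcs E₂ n`; `φ w = q (ψ w) = (q g)⁻¹ ∈ lcs P n` (image of the lower central series: `Subgroup.map_lowerCentralSeries`), so `w ∈ lcs (FreeGroup ι) n`, so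
`ψ w ∈ lcs E₂ n`. Row L6 for `Γ = E₂`: `t ∈ ⁅lcs E₂ m, lcs E₂ m⁆`. Every `x ∈ lcs E₂ m` has `q x ∈ lcs P m`, so `x = s (q x) · z` with `z ∈ ker q` central. So
commutators of such elements are commutators of elements of `s.range`; so `⁅lcs E₂ m, lcs E₂ m⁆` (mapped to `E`) is contained in `s.range`
(`Subgroup.commutator_le`). So `t = s p`, `p = q (s p) = q t = 1`, `t = 1`. Hence `q` restricted to `E₂` is injective and surjective; `σ` is its inverse
(`MulEquiv.ofBijective`) composed with the inclusion.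
-/

set_option autoImplicit false

namespace Pool.Agent.LibPF5

private theorem C3_map {A B : Type} [Group A] [Group B] (f : A →* B) (n : ℕ) :
    (lcs A n).map f ≤ lcs B n := by
  induction n with
  | zero => exact le_top
  | succ n ih =>
    change (⁅lcs A n, (⊤ : Subgroup A)⁆).map f ≤ ⁅lcs B n, (⊤ : Subgroup B)⁆
    rw [Subgroup.map_commutator]
    exact Subgroup.commutator_mono ih le_top

private theorem C3_com {E : Type} [Group E] {X Y z z' : E} (hz : ∀ g, g * z = z * g)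
    (hz' : ∀ g, g * z' = z' * g) :
    (X * z) * (Y * z') * (X * z)⁻¹ * (Y * z')⁻¹ = X * Y * X⁻¹ * Y⁻¹ := by
  have h1 : ∀ b : E, (X * z) * b * (X * z)⁻¹ * b⁻¹ = X * b * X⁻¹ * b⁻¹ := by
    intro b
    rw [mul_inv_rev, mul_assoc X z b, ← hz b]
    group
  have h2 : ∀ a : E, a * (Y * z') * a⁻¹ * (Y * z')⁻¹ = a * Y * a⁻¹ * Y⁻¹ := by
    intro a
    rw [mul_inv_rev]
    have h3 : a * (Y * z') * a⁻¹ = a * Y * a⁻¹ * z' := by
      rw [hz' (a * Y * a⁻¹)]
      rw [show a * (Y * z') * a⁻¹ = (a * Y * z') * a⁻¹ by group, hz' (a * Y)]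
      group
    rw [h3]
    group
  rw [h1, h2]

theorem C3 (P : Type) [Group P] (hP : NF P) (hfg : Group.FG P) (m : ℕ) (E : Type) [Group E]
    (q : E →* P) (hq : Function.Surjective q) (hker : q.ker ≤ Subgroup.center E)
    (s : lcs P m →* E) (hs : ∀ x, q (s x) = x) : ∃ σ : P →* E, ∀ p, q (σ p) = p := by
  obtain ⟨ι, φ, hφ⟩ := hP
  obtain ⟨E₂, ψ, hfg2, hsurj, hψ, hmod⟩ := C1 E P q hq hker ι φ hfg (hφ 1).1 (hφ 1).2
  let q₂ : E₂ →* P := q.comp E₂.subtype
  have key : ∀ t : E₂, q t = 1 → t = 1 := by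
    intro t ht
    have hcE : (t : E) ∈ Subgroup.center E := hker ht
    have hc : t ∈ Subgroup.center E₂ := by
      rw [Subgroup.mem_center_iff] at hcE ⊢
      intro g
      exact Subtype.ext (hcE g)
    have hω : ∀ n, t ∈ lcs E₂ n := by
      intro n
      obtain ⟨w, hw⟩ := C2 ψ hmod n t
      have h1 : q₂ ((ψ w)⁻¹ * t) ∈ lcs P n := C3_map q₂ n ⟨_, hw, rfl⟩
      have h2 : q₂ ((ψ w)⁻¹ * t) = (φ w)⁻¹ := by
        rw [map_mul, map_inv]
        change (q (ψ w))⁻¹ * q t = (φ w)⁻¹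
        rw [hψ, ht, mul_one]
      rw [h2, inv_mem_iff] at h1
      have h3 : ψ w ∈ lcs E₂ n := C3_map ψ n ⟨_, (hφ n).1 w h1, rfl⟩
      have h4 := mul_mem h3 hw
      rwa [mul_inv_cancel_left] at h4
    have h6 := L6 hfg2 m t hc hω
    have hle : (⁅lcs E₂ m, lcs E₂ m⁆).map E₂.subtype ≤ s.range := by
      rw [Subgroup.map_commutator, Subgroup.commutator_le]
      rintro _ ⟨a, ha, rfl⟩ _ ⟨b, hb, rfl⟩
      have h1 : ∀ a : E₂, a ∈ lcs E₂ m →
          ∃ X ∈ s.range, ∃ z : E, (∀ g, g * z = z * g) ∧ (a : E) = X * z := by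
        intro a ha
        have h2 : q a ∈ lcs P m := C3_map q₂ m ⟨_, ha, rfl⟩
        refine ⟨s ⟨q a, h2⟩, ⟨_, rfl⟩, (s ⟨q a, h2⟩)⁻¹ * a, ?_, ?_⟩
        · have h3 : (s ⟨q a, h2⟩)⁻¹ * (a : E) ∈ Subgroup.center E := by
            apply hker
            rw [MonoidHom.mem_ker, map_mul, map_inv, hs, inv_mul_cancel]
          exact Subgroup.mem_center_iff.1 h3
        · rw [mul_inv_cancel_left]
      obtain ⟨X, hX, z, hz, e1⟩ := h1 a ha
      obtain ⟨Y, hY, z', hz', e2⟩ := h1 b hb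
      change (a : E) * (b : E) * (a : E)⁻¹ * (b : E)⁻¹ ∈ s.range
      rw [e1, e2, C3_com hz hz']
      exact mul_mem (mul_mem (mul_mem hX hY) (inv_mem hX)) (inv_mem hY)
    obtain ⟨x, hx⟩ := hle ⟨t, h6, rfl⟩
    have hx' : s x = (t : E) := hx
    have h7 := hs x
    rw [hx', ht] at h7
    have h8 : x = 1 := Subtype.ext h7.symm
    rw [h8, map_one] at hx'
    exact Subtype.ext hx'.symm
  have hbij : Function.Bijective q₂ := by
    constructor
    · rw [injective_iff_map_eq_one]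
      exact key
    · exact hsurj
  refine ⟨E₂.subtype.comp (MulEquiv.ofBijective q₂ hbij).symm.toMonoidHom, fun p => ?_⟩
  exact (MulEquiv.ofBijective q₂ hbij).apply_symm_apply p

end Pool.Agent.LibPF5
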