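import Pool.Agent.LibPF5.Defs

/-! The subgroup `E₂` of a central extension of a f.g. parafree group. -/

set_option autoImplicit false

namespace Pool.Agent.LibPF5

open Subgroup
open scoped commutatorElement

private theorem C1_lcsmap {Γ Δ : Type} [Group Γ] [Group Δ] (f : Γ →* Δ) (hf : Function.Surjective f)
    (m : ℕ) : (lcs Γ m).map f = lcs Δ m := by
  rw [Subgroup.map_lowerCentralSeries, ← MonoidHom.range_eq_map, MonoidHom.range_eq_top.mpr hf]

private theorem C1_comm {G A : Type} [Group G] [CommGroup A] (χ : G →* A) (x : G) (hx : x ∈ lcs G 1) :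
    χ x = 1 := by
  have h : lcs G 1 ≤ χ.ker := by
    change ⁅(⊤ : Subgroup G), ⊤⁆ ≤ _
    rw [Subgroup.commutator_le]
    intro a _ b _
    rw [MonoidHom.mem_ker, map_commutatorElement, commutatorElement_eq_one_iff_mul_comm]
    exact mul_comm _ _
  exact h hx

private theorem C1_avoid {ι A : Type} [DecidableEq ι] [CommGroup A] (i : ι) (a : A) (w : FreeGroup ι)
    (hw : ∀ x ∈ w.toWord, x.1 ≠ i) : FreeGroup.lift (fun k => if k = i then a else 1) w = 1 := by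
  conv_lhs => rw [← FreeGroup.mk_toWord (x := w)]
  rw [FreeGroup.lift_mk]
  apply List.prod_eq_one
  intro y hy
  rw [List.mem_map] at hy
  obtain ⟨⟨k, b⟩, hx, rfl⟩ := hy
  have h1 : k ≠ i := hw _ hx
  cases b <;> simp [h1]

private theorem C1_finite (P : Type) [Group P] (ι : Type) (φ : FreeGroup ι →* P) (hfg : Group.FG P)
    (h1 : ∀ w, φ w ∈ lcs P 1 → w ∈ lcs (FreeGroup ι) 1) (h2 : ∀ p, ∃ w, (φ w)⁻¹ * p ∈ lcs P 1) :
    Finite ι := by
  classical
  by_contra hinf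
  rw [not_finite_iff_infinite] at hinf
  obtain ⟨S, hS, hSf⟩ := Group.fg_iff.mp hfg
  choose w hw using h2
  let L : Set ι := ⋃ s ∈ S, {i | ∃ x ∈ (w s).toWord, x.1 = i}
  have hL : L.Finite := by
    apply hSf.biUnion
    intro s _
    have : {i | ∃ x ∈ (w s).toWord, x.1 = i} = ((w s).toWord.map Prod.fst).toFinset := by
      ext i; simp
    rw [this]
    exact Finset.finite_toSet _
  obtain ⟨i, hi⟩ := hL.exists_notMem
  let χ : FreeGroup ι →* Multiplicative ℤ :=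
    FreeGroup.lift (fun k => if k = i then Multiplicative.ofAdd (1 : ℤ) else 1)
  have hχw : ∀ s ∈ S, χ (w s) = 1 := by
    intro s hs
    apply C1_avoid
    intro x hx hxi
    exact hi (Set.mem_biUnion hs ⟨x, hx, hxi⟩)
  have hcong : ∀ u v : FreeGroup ι, (φ u)⁻¹ * φ v ∈ lcs P 1 → χ u = χ v := by
    intro u v h
    rw [← map_inv, ← map_mul] at h
    have := C1_comm χ _ (h1 _ h)
    rw [map_mul, map_inv, inv_mul_eq_one] at this
    exact this
  haveI : (lcs P 1).Normal := inferInstance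
  have hcls : ∀ (p : P) (u : FreeGroup ι), (φ u)⁻¹ * p ∈ lcs P 1 → χ u = χ (w p) := by
    intro p u h
    apply hcong
    have h3 : (φ u)⁻¹ * φ (w p) = ((φ u)⁻¹ * p) * ((φ (w p))⁻¹ * p)⁻¹ := by group
    rw [h3]
    exact mul_mem h (inv_mem (hw p))
  let χ' : P →* Multiplicative ℤ := MonoidHom.mk' (fun p => χ (w p)) (by
    intro p r
    rw [← map_mul]
    symm
    apply hcls
    have h3 : (φ (w p * w r))⁻¹ * (p * r) =
        ((φ (w r))⁻¹ * ((φ (w p))⁻¹ * p) * (φ (w r))⁻¹⁻¹) * ((φ (w r))⁻¹ * r) := by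
      rw [map_mul]; group
    rw [h3]
    exact mul_mem (Subgroup.Normal.conj_mem ‹_› _ (hw p) _) (hw r))
  have htriv : χ' = 1 := by
    apply MonoidHom.eq_of_eqOn_dense hS
    intro s hs
    exact hχw s hs
  have h5 : χ (FreeGroup.of i) = χ' (φ (FreeGroup.of i)) := by
    apply hcls
    rw [inv_mul_cancel]
    exact one_mem _
  rw [htriv] at h5
  simp [χ] at h5

theorem C1 (E P : Type) [Group E] [Group P] (q : E →* P) (hq : Function.Surjective q)
    (hker : q.ker ≤ Subgroup.center E) (ι : Type) (φ : FreeGroup ι →* P) (hfg : Group.FG P)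
    (h1 : ∀ w, φ w ∈ lcs P 1 → w ∈ lcs (FreeGroup ι) 1) (h2 : ∀ p, ∃ w, (φ w)⁻¹ * p ∈ lcs P 1) :
    ∃ (E₂ : Subgroup E) (ψ : FreeGroup ι →* E₂), Group.FG E₂ ∧ (∀ p, ∃ x : E₂, q x = p) ∧
      (∀ w, q (ψ w) = φ w) ∧ ∀ x : E₂, ∃ w, (ψ w)⁻¹ * x ∈ lcs E₂ 1 := by
  classical
  haveI hfin := C1_finite P ι φ hfg h1 h2
  obtain ⟨S, hS, hSf⟩ := Group.fg_iff.mp hfg
  choose w hw using h2
  -- the lift of φ
  choose e he using hq
  let φ' : FreeGroup ι →* E := FreeGroup.lift (fun k => e (φ (FreeGroup.of k)))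
  have hφ' : ∀ v, q (φ' v) = φ v := by
    intro v
    have : q.comp φ' = φ := by
      apply FreeGroup.ext_hom
      intro k
      simp [φ', he]
    rw [← this]; rfl
  have hc : ∀ p, ∃ c ∈ lcs E 1, q c = (φ (w p))⁻¹ * p := by
    intro p
    have := hw p
    rw [← C1_lcsmap q (fun x => ⟨e x, he x⟩)] at this
    exact this
  choose c hc1 hc2 using hc
  let X : Set E := Set.range (fun k => φ' (FreeGroup.of k)) ∪ c '' S
  have hX : X.Finite := (Set.finite_range _).union (hSf.image _)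
  let E₂ : Subgroup E := Subgroup.closure X
  have hφE : ∀ v, φ' v ∈ E₂ := by
    intro v
    have : φ'.range ≤ E₂ := by
      rw [MonoidHom.range_eq_map, ← FreeGroup.closure_range_of, MonoidHom.map_closure,
        Subgroup.closure_le]
      rintro _ ⟨_, ⟨k, rfl⟩, rfl⟩
      exact Subgroup.subset_closure (Or.inl ⟨k, rfl⟩)
    exact this ⟨v, rfl⟩
  have hcE : ∀ s ∈ S, c s ∈ E₂ := fun s hs => Subgroup.subset_closure (Or.inr ⟨s, hs, rfl⟩)
  have hqE : E₂.map q = ⊤ := by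
    rw [eq_top_iff, ← hS, Subgroup.closure_le]
    intro s hs
    refine ⟨φ' (w s) * c s, mul_mem (hφE _) (hcE s hs), ?_⟩
    rw [map_mul, hφ', hc2]; group
  have hcom : lcs E 1 ≤ ⁅E₂, E₂⁆ := by
    change ⁅(⊤ : Subgroup E), ⊤⁆ ≤ _
    rw [Subgroup.commutator_le]
    have hdec : ∀ x : E, ∃ y ∈ E₂, ∃ z ∈ Subgroup.center E, x = y * z := by
      intro x
      have : q x ∈ E₂.map q := by rw [hqE]; exact Subgroup.mem_top _
      obtain ⟨y, hy, hyx⟩ := this
      refine ⟨y, hy, y⁻¹ * x, hker ?_, by group⟩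
      rw [MonoidHom.mem_ker, map_mul, map_inv, hyx, inv_mul_cancel]
    intro x _ y _
    obtain ⟨a, ha, z, hz, rfl⟩ := hdec x
    obtain ⟨b, hb, z', hz', rfl⟩ := hdec y
    have hzc := Subgroup.mem_center_iff.mp hz
    have hzc' := Subgroup.mem_center_iff.mp hz'
    have key : ⁅a * z, b * z'⁆ = ⁅a, b⁆ := by
      rw [commutatorElement_def, commutatorElement_def, mul_inv_rev, mul_inv_rev]
      have e1 : a * z * (b * z') * (z⁻¹ * a⁻¹) * (z'⁻¹ * b⁻¹) =
          a * (z * (b * z')) * (z⁻¹ * a⁻¹) * (z'⁻¹ * b⁻¹) := by group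
      rw [e1, ← hzc (b * z')]
      have e2 : a * (b * z' * z) * (z⁻¹ * a⁻¹) * (z'⁻¹ * b⁻¹) = a * b * (z' * a⁻¹) * (z'⁻¹ * b⁻¹) := by
        group
      rw [e2, ← hzc' a⁻¹]
      group
    rw [key]
    exact Subgroup.commutator_mem_commutator ha hb
  let ψ : FreeGroup ι →* E₂ := φ'.codRestrict E₂ hφE
  refine ⟨E₂, ψ, ?_, ?_, fun v => hφ' v, ?_⟩
  · rw [Group.fg_iff_subgroup_fg]
    exact (Subgroup.fg_iff _).mpr ⟨X, rfl, hX⟩
  · intro p
    have : p ∈ E₂.map q := by rw [hqE]; exact Subgroup.mem_top _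
    obtain ⟨y, hy, hyx⟩ := this
    exact ⟨⟨y, hy⟩, hyx⟩
  · haveI : (lcs E₂ 1).Normal := inferInstance
    have hR : E₂ ≤ (ψ.range ⊔ lcs E₂ 1).map E₂.subtype := by
      rw [Subgroup.closure_le]
      rintro x (⟨k, rfl⟩ | ⟨s, hs, rfl⟩)
      · exact ⟨ψ (FreeGroup.of k), (le_sup_left : ψ.range ≤ _) ⟨_, rfl⟩, rfl⟩
      · have h3 : c s ∈ ⁅E₂, E₂⁆ := hcom (hc1 s)
        have h4 : (lcs E₂ 1).map E₂.subtype = ⁅E₂, E₂⁆ := by
          change Subgroup.map E₂.subtype ⁅(⊤ : Subgroup E₂), ⊤⁆ = _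
          rw [Subgroup.map_commutator, ← MonoidHom.range_eq_map, Subgroup.range_subtype]
        rw [← h4] at h3
        exact Subgroup.map_mono le_sup_right h3
    intro x
    obtain ⟨y, hy, hyx⟩ := hR x.2
    have hxy : y = x := Subtype.ext hyx
    subst hxy
    have hy' : y ∈ ((ψ.range ⊔ lcs E₂ 1 : Subgroup E₂) : Set E₂) := hy
    rw [Subgroup.mul_normal] at hy'
    obtain ⟨_, ⟨v, rfl⟩, z, hz, rfl⟩ := hy'
    refine ⟨v, ?_⟩
    change (ψ v)⁻¹ * (ψ v * z) ∈ lcs E₂ 1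
    rw [inv_mul_cancel_left]
    exact hz

end Pool.Agent.LibPF5
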