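import Pool.Agent.LibPF5.X1
import Pool.Agent.LibPF5.C3

/-! A 2-cocycle of a f.g. group with the nilpotent quotients of a free group is a coboundary if it is one on a term of
the lower central series. -/

set_option autoImplicit false

namespace Pool.Agent.LibPF5

theorem core (P : Type) [Group P] (hP : NilFree P) (hfg : Group.FG P) (m : ℕ)
    (c : P → P → QZ) (hc : Coc c) (hM : Cob (fun x y : lcs P m => c x y)) : Cob c :=
  X1 P (lcs P m) (fun E _ q hq hker s hs => C3 P hP.nf hfg m E q hq hker s hs) QZ c hc hM

end Pool.Agent.LibPF5
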