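import Pool.Agent.LibPF5.Defs

/-! If `H_2(G;Z) = 0` then every 2-cocycle with values in `Q/Z` is a coboundary. -/

set_option autoImplicit false

namespace Pool.Agent.LibPF5

open groupHomology

/-- the additive map on 2-chains given by a function of two variables -/
noncomputable def D1_C {G T : Type} [AddCommGroup T] (c : G → G → T) : (G × G →₀ ℤ) →+ T :=
  Finsupp.liftAddHom (fun p => (zmultiplesHom T) (c p.1 p.2))

/-- the additive map on 1-chains given by a function of one variable -/
noncomputable def D1_F {G T : Type} [AddCommGroup T] (φ : G → T) : (G →₀ ℤ) →+ T :=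
  Finsupp.liftAddHom (fun p => (zmultiplesHom T) (φ p))

theorem D1_C_single {G T : Type} [AddCommGroup T] (c : G → G → T) (x y : G) (n : ℤ) :
    D1_C c (Finsupp.single (x, y) n) = n • c x y := by
  simp [D1_C]

theorem D1_F_single {G T : Type} [AddCommGroup T] (φ : G → T) (x : G) (n : ℤ) :
    D1_F φ (Finsupp.single x n) = n • φ x := by
  simp [D1_F]

theorem D1_d21 {G : Type} [Group G] (x y : G) (n : ℤ) :
    (d₂₁ (Rep.trivial ℤ G ℤ)).hom (Finsupp.single (x, y) n) =
      Finsupp.single y n - Finsupp.single (x * y) n + Finsupp.single x n := by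
  have := d₂₁_single (A := Rep.trivial ℤ G ℤ) (x, y) n
  simpa using this

theorem D1_d32 {G : Type} [Group G] (x y z : G) (n : ℤ) :
    (d₃₂ (Rep.trivial ℤ G ℤ)).hom (Finsupp.single (x, y, z) n) =
      Finsupp.single (y, z) n - Finsupp.single (x * y, z) n + Finsupp.single (x, y * z) n
        - Finsupp.single (x, y) n := by
  have := d₃₂_single (A := Rep.trivial ℤ G ℤ) (x, y, z) n
  simpa using this

/-- a map to `Q/Z` which vanishes on 2-cycles comes from 1-chains -/
theorem D1_ext {G : Type} [Group G] (c : G → G → QZ)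
    (h : ∀ z ∈ cycles₂ (Rep.trivial ℤ G ℤ), D1_C c z = 0) : Cob c := by
  let d : (G × G →₀ ℤ) →ₗ[ℤ] (G →₀ ℤ) := (d₂₁ (Rep.trivial ℤ G ℤ)).hom
  have hd : ∀ z, d z = 0 → D1_C c z = 0 := fun z hz => h z hz
  let B := LinearMap.range d
  -- the map on the range
  have hg : ∀ b : B, ∃ z, d z = b := fun b => b.2
  choose s hs using hg
  let g : B →+ QZ := AddMonoidHom.mk' (fun b => D1_C c (s b)) (by
    intro a b
    rw [← map_add, ← sub_eq_zero, ← map_sub]
    apply hd
    rw [map_sub, map_add, hs, hs, hs]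
    simp)
  have hgd : ∀ z, g ⟨d z, z, rfl⟩ = D1_C c z := by
    intro z
    change D1_C c (s _) = _
    rw [← sub_eq_zero, ← map_sub]
    apply hd
    rw [map_sub, hs]
    simp
  obtain ⟨ψ, hψ⟩ := CharacterModule.dual_surjective_of_injective (R := ℤ) B.subtype
    (Submodule.injective_subtype B) g
  have hψ' : ∀ b : B, ψ (b : G →₀ ℤ) = g b := by
    intro b
    rw [← hψ]; rfl
  refine ⟨fun x => ψ (Finsupp.single x 1), ?_⟩
  intro x y
  have h1 := hgd (Finsupp.single (x, y) 1)
  rw [D1_C_single, one_smul] at h1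
  rw [← h1, ← hψ']
  change ψ (d (Finsupp.single (x, y) 1)) = _
  rw [show d (Finsupp.single (x, y) 1) = Finsupp.single y 1 - Finsupp.single (x * y) 1 +
    Finsupp.single x 1 from D1_d21 x y 1, map_add, map_sub]
  abel

theorem D1_vanish {G : Type} [Group G] (c : G → G → QZ) (hc : Coc c) (z : G × G →₀ ℤ)
    (hz : z ∈ boundaries₂ (Rep.trivial ℤ G ℤ)) : D1_C c z = 0 := by
  obtain ⟨w, rfl⟩ := hz
  induction w using Finsupp.induction_linear with
  | zero => simp
  | add f g hf hg => rw [map_add, map_add, hf, hg, add_zero]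
  | single a n =>
    obtain ⟨x, y, w⟩ := a
    rw [D1_d32]
    simp only [map_add, map_sub, D1_C_single]
    rw [← smul_sub, ← smul_add, ← smul_sub]
    have := hc x y w
    have h2 : c y w - c (x * y) w + c x (y * w) - c x y = 0 := by
      have : c x y + c (x * y) w = c y w + c x (y * w) := this
      have h3 : c y w - c (x * y) w + c x (y * w) - c x y =
        (c y w + c x (y * w)) - (c x y + c (x * y) w) := by abel
      rw [h3, ← this, sub_self]
    rw [h2, smul_zero]

theorem D1 (G : Type) [Group G] (h : H2Zero G) (c : G → G → QZ) (hc : Coc c) : Cob c := by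
  apply D1_ext
  intro z hz
  apply D1_vanish c hc
  haveI : Subsingleton (groupHomology (Rep.trivial ℤ G ℤ) 2) := h
  have h1 : H2π (Rep.trivial ℤ G ℤ) ⟨z, hz⟩ = 0 := Subsingleton.elim _ _
  exact (H2π_eq_zero_iff ⟨z, hz⟩).mp h1

end Pool.Agent.LibPF5
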