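import Pool.Agent.LibPF5.Defs

/-!
Row D2 (MEDIUM). Duality: if every `Q/Z`-valued 2-cocycle of `P` which is a coboundary on the subgroup `M` is a
coboundary on `P`, then `H_2(M;Z) → H_2(P;Z)` is surjective. The case where every 2-cocycle is a coboundary gives `H_2(P;Z) = 0`.

PLAN (D2). Suppose `y` in `H_2(P)` is not in the range. Lift `y` to a 2-cycle `z ∈ cycles₂ A`, `A = Rep.trivial ℤ P ℤ`
(`groupHomology.H2_induction_on` or surjectivity of `H2π`). Let `X ≤ (P × P →₀ ℤ)` be `boundaries₂ A` plus the image of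
`cycles₂ (Rep.trivial ℤ M ℤ)` under `Finsupp.mapDomain (Prod.map M.subtype M.subtype)` (= `chainsMap₂`, see
`groupHomology.coe_mapCycles₂`, `groupHomology.H2π_comp_map`). Then `z ∉ X` (otherwise `y` is in the range, using
`H2π_eq_iff` / `H2π_eq_zero_iff`). So there is a character `χ` of the quotient by `X` with `χ z ≠ 0`
(`CharacterModule.exists_character_apply_ne_zero_of_ne_zero`), i.e. `C : (P × P →₀ ℤ) →+ QZ` with `C = 0` on `X`, `C z ≠ 0`.
Put `c x y := C (single (x,y) 1)`. `Coc c` since `C` vanishes on `d₃₂ (single (x,y,w) 1)`. On `M`: `C ∘ (image)` vanishes on the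
2-cycles of `M`, so it is a coboundary on `M` by the same extension argument as in row D1 (factor through the range of
`d₂₁` for `M`, extend by injectivity of `QZ`: `CharacterModule.dual_surjective_of_injective`). Hypothesis: `c x y = φ x + φ y - φ (x*y)` on `P`.
With `Φ : (P →₀ ℤ) →+ QZ`, `single x n ↦ n • φ x`: `C = Φ ∘ d₂₁`, so `C z = Φ 0 = 0`. Contradiction.
PLAN (D3). Same with `M` replaced by nothing (`X = boundaries₂ A`): every element of `H_2(P)` is zero.
-/

set_option autoImplicit false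

namespace Pool.Agent.LibPF5

private theorem D2_ext {A B : Type} [AddCommGroup A] [AddCommGroup B] (d : A →+ B) (C : A →+ QZ)
    (h : ∀ x, d x = 0 → C x = 0) : ∃ Ψ : B →+ QZ, ∀ x, Ψ (d x) = C x := by
  let dl : A →ₗ[ℤ] B := d.toIntLinearMap
  let Cl : A →ₗ[ℤ] QZ := C.toIntLinearMap
  let i : (A ⧸ LinearMap.ker dl) →ₗ[ℤ] B := (LinearMap.ker dl).liftQ dl le_rfl
  have hi : Function.Injective i := by
    rw [← LinearMap.ker_eq_bot]
    exact Submodule.ker_liftQ_eq_bot _ _ _ le_rfl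
  let g : (A ⧸ LinearMap.ker dl) →ₗ[ℤ] QZ := (LinearMap.ker dl).liftQ Cl (by
    intro x hx
    exact h x hx)
  obtain ⟨Ψ, hΨ⟩ := CharacterModule.dual_surjective_of_injective i hi g.toAddMonoidHom
  refine ⟨Ψ, fun x => ?_⟩
  have := DFunLike.congr_fun hΨ ((LinearMap.ker dl).mkQ x)
  exact this

/-- the boundary map from 2-chains to 1-chains, trivial integral coefficients -/
private noncomputable def D2_d (G : Type) [Group G] : (G × G →₀ ℤ) →+ (G →₀ ℤ) :=
  Finsupp.liftAddHom (fun g => Finsupp.singleAddHom g.2 - Finsupp.singleAddHom (g.1 * g.2) +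
    Finsupp.singleAddHom g.1)

private theorem D2_d_single {G : Type} [Group G] (x y : G) (n : ℤ) :
    D2_d G (Finsupp.single (x, y) n) =
      Finsupp.single y n - Finsupp.single (x * y) n + Finsupp.single x n := by
  simp [D2_d]

private theorem D2_d_eq {G : Type} [Group G] (x : G × G →₀ ℤ) :
    (groupHomology.d₂₁ (Rep.trivial ℤ G ℤ)).hom x = D2_d G x := by
  induction x using Finsupp.induction_linear with
  | zero => rw [map_zero, map_zero]
  | add f g hf hg => rw [map_add, map_add, ← hf, ← hg]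
  | single p n =>
    obtain ⟨x, y⟩ := p
    rw [D2_d_single]
    exact groupHomology.d₂₁_single (A := Rep.trivial ℤ G ℤ) (x, y) n

private theorem D2_factor {G : Type} [Group G] (C : (G × G →₀ ℤ) →+ QZ)
    (φ : G → QZ) (h : ∀ x y, C (Finsupp.single (x, y) 1) = φ x + φ y - φ (x * y))
    (z : G × G →₀ ℤ) (hz : D2_d G z = 0) : C z = 0 := by
  let Φ : (G →₀ ℤ) →+ QZ := Finsupp.liftAddHom (fun g => (AddMonoidHom.flip (smulAddHom ℤ QZ) (φ g)))
  have hΦ : ∀ (x : G) (n : ℤ), Φ (Finsupp.single x n) = n • φ x := by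
    intro x n
    simp [Φ]
  have key : C = Φ.comp (D2_d G) := by
    apply Finsupp.addHom_ext
    rintro ⟨x, y⟩ n
    have h1 : C (Finsupp.single (x, y) n) = n • C (Finsupp.single (x, y) 1) := by
      rw [← map_zsmul, Finsupp.smul_single, smul_eq_mul, mul_one]
    rw [AddMonoidHom.comp_apply, D2_d_single, map_add, map_sub, hΦ, hΦ, hΦ, h1, h]
    rw [smul_sub, smul_add]
    abel
  rw [key, AddMonoidHom.comp_apply, hz, map_zero]

private theorem D2_cob {G : Type} [Group G] (C : (G × G →₀ ℤ) →+ QZ)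
    (h : ∀ m, D2_d G m = 0 → C m = 0) : Cob (fun x y : G => C (Finsupp.single (x, y) 1)) := by
  obtain ⟨Ψ, hΨ⟩ := D2_ext (D2_d G) C h
  refine ⟨fun x => Ψ (Finsupp.single x 1), fun x y => ?_⟩
  have := hΨ (Finsupp.single (x, y) 1)
  rw [D2_d_single, map_add, map_sub] at this
  show C (Finsupp.single (x, y) 1) = _
  rw [← this]
  abel

private theorem D2_coc {G : Type} [Group G] (C : (G × G →₀ ℤ) →+ QZ)
    (h : ∀ b ∈ groupHomology.boundaries₂ (Rep.trivial ℤ G ℤ), C b = 0) :
    Coc (fun x y : G => C (Finsupp.single (x, y) 1)) := by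
  intro x y w
  have h1 := h ((groupHomology.d₃₂ (Rep.trivial ℤ G ℤ)).hom (Finsupp.single (x, y, w) (1 : ℤ)))
    ⟨_, rfl⟩
  have h2 : (groupHomology.d₃₂ (Rep.trivial ℤ G ℤ)).hom (Finsupp.single (x, y, w) (1 : ℤ)) =
      (Finsupp.single (y, w) (1 : ℤ) - Finsupp.single (x * y, w) (1 : ℤ) +
      Finsupp.single (x, y * w) (1 : ℤ) - Finsupp.single (x, y) (1 : ℤ) : G × G →₀ ℤ) :=
    groupHomology.d₃₂_single (A := Rep.trivial ℤ G ℤ) (x, y, w) 1
  rw [h2, map_sub, map_add, map_sub] at h1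
  show C (Finsupp.single (x, y) 1) + C (Finsupp.single (x * y, w) 1) =
    C (Finsupp.single (y, w) 1) + C (Finsupp.single (x, y * w) 1)
  have h3 := sub_eq_zero.1 h1
  rw [← h3]
  abel

private theorem D2_chi {A : Type} [AddCommGroup A] (X : Submodule ℤ A) (z : A) (hz : z ∉ X) :
    ∃ C : A →+ QZ, (∀ x ∈ X, C x = 0) ∧ C z ≠ 0 := by
  have hne : X.mkQ z ≠ 0 := by
    intro h
    exact hz ((Submodule.Quotient.mk_eq_zero X).1 h)
  obtain ⟨χ, hχ⟩ := CharacterModule.exists_character_apply_ne_zero_of_ne_zero hne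
  refine ⟨(χ : (A ⧸ X) →+ QZ).comp X.mkQ.toAddMonoidHom, ?_, hχ⟩
  intro x hx
  have : X.mkQ x = 0 := (Submodule.Quotient.mk_eq_zero X).2 hx
  show χ (X.mkQ x) = 0
  rw [this]
  exact map_zero (χ : (A ⧸ X) →+ QZ)

theorem D2 (P : Type) [Group P] (M : Subgroup P)
    (h : ∀ c : P → P → QZ, Coc c → Cob (fun x y : M => c x y) → Cob c) :
    Function.Surjective
      (groupHomology.map M.subtype (CategoryTheory.CategoryStruct.id (Rep.trivial ℤ M ℤ)) 2 :
        groupHomology (Rep.trivial ℤ M ℤ) 2 ⟶ groupHomology (Rep.trivial ℤ P ℤ) 2) := by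
  intro y
  induction y using groupHomology.H2_induction_on with
  | h z => 
    let cm : (M × M →₀ ℤ) →ₗ[ℤ] (P × P →₀ ℤ) :=
      (groupHomology.chainsMap₂ M.subtype (A := Rep.trivial ℤ M ℤ) (B := Rep.trivial ℤ P ℤ)
        (CategoryTheory.CategoryStruct.id (Rep.trivial ℤ M ℤ))).hom
    let X : Submodule ℤ (P × P →₀ ℤ) := groupHomology.boundaries₂ (Rep.trivial ℤ P ℤ) ⊔
      (groupHomology.cycles₂ (Rep.trivial ℤ M ℤ)).map cm
    have hzX : z.1 ∈ X := by
      by_contra hz
      obtain ⟨C, hC, hCz⟩ := D2_chi X z.1 hz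
      apply hCz
      have hcoc := D2_coc C (fun b hb => hC b ((le_sup_left : _ ≤ X) hb))
      have hcm : ∀ (x y : M) (n : ℤ), cm (Finsupp.single (x, y) n) =
          Finsupp.single ((x : P), (y : P)) n := by
        intro x y n
        simp [cm]
        rfl
      have hcob := D2_cob (C.comp cm.toAddMonoidHom) (fun m hm => hC _ (by
        apply (le_sup_right : _ ≤ X)
        refine ⟨m, ?_, rfl⟩
        show (groupHomology.d₂₁ (Rep.trivial ℤ M ℤ)).hom m = 0
        rw [D2_d_eq, hm]))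
      have hcob2 : Cob (fun x y : M => C (Finsupp.single ((x : P), (y : P)) 1)) := by
        obtain ⟨φ, hφ⟩ := hcob
        refine ⟨φ, fun x y => ?_⟩
        rw [← hφ x y]
        show _ = C (cm (Finsupp.single (x, y) 1))
        rw [hcm]
      obtain ⟨φ, hφ⟩ := h _ hcoc hcob2
      refine D2_factor C φ hφ z.1 ?_
      rw [← D2_d_eq]
      exact z.2
    obtain ⟨b, hb, t, ⟨m, hm, rfl⟩, hbt⟩ := Submodule.mem_sup.1 hzX
    refine ⟨groupHomology.H2π (Rep.trivial ℤ M ℤ) ⟨m, hm⟩, ?_⟩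
    rw [groupHomology.H2π_comp_map_apply]
    rw [groupHomology.H2π_eq_iff]
    have h1 : cm m - z.1 = -b := by
      rw [← hbt]
      abel
    have h2 : cm m - z.1 ∈ groupHomology.boundaries₂ (Rep.trivial ℤ P ℤ) := by
      rw [h1]
      exact Submodule.neg_mem _ hb
    exact h2

theorem D3 (P : Type) [Group P] (h : ∀ c : P → P → QZ, Coc c → Cob c) : H2Zero P := by
  refine ⟨fun a b => ?_⟩
  suffices hs : ∀ y : groupHomology (Rep.trivial ℤ P ℤ) 2, y = 0 by rw [hs a, hs b]
  intro y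
  induction y using groupHomology.H2_induction_on with
  | h z => 
    rw [groupHomology.H2π_eq_zero_iff]
    by_contra hz
    obtain ⟨C, hC, hCz⟩ := D2_chi (A := P × P →₀ ℤ)
      (groupHomology.boundaries₂ (Rep.trivial ℤ P ℤ)) z.1 hz
    apply hCz
    obtain ⟨φ, hφ⟩ := h _ (D2_coc C hC)
    refine D2_factor C φ hφ z.1 ?_
    rw [← D2_d_eq]
    exact z.2

end Pool.Agent.LibPF5
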