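import Pool.Agent.LibPF5.D1

/-! A `Q/Z`-valued 2-cocycle which is a coboundary on the members of a directed family of subgroups covering `G` is a coboundary. -/

set_option autoImplicit false

namespace Pool.Agent.LibPF5

open groupHomology

/-- if `c` is a coboundary of `ψ` on the support of `z`, then `C z = Ψ (d z)`. -/
theorem D4_eval {G : Type} [Group G] (c : G → G → QZ) (ψ : G → QZ) (z : G × G →₀ ℤ)
    (h : ∀ p ∈ z.support, c p.1 p.2 = ψ p.1 + ψ p.2 - ψ (p.1 * p.2)) :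
    D1_C c z = D1_F ψ ((d₂₁ (Rep.trivial ℤ G ℤ)).hom z) := by
  have hz : z = ∑ p ∈ z.support, Finsupp.single p (z p) := (Finsupp.sum_single z).symm
  conv_lhs => rw [hz]
  conv_rhs => rw [hz]
  rw [map_sum, map_sum, map_sum]
  apply Finset.sum_congr rfl
  rintro ⟨x, y⟩ hp
  rw [D1_C_single, D1_d21, map_add, map_sub, D1_F_single, D1_F_single, D1_F_single, h _ hp,
    ← smul_sub, ← smul_add]
  congr 1
  abel

theorem D4 (G : Type) [Group G] (c : G → G → QZ) (I : Type) (N : I → Subgroup G)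
    (hN : ∀ s : Finset G, ∃ i, ∀ x ∈ s, x ∈ N i) (h : ∀ i, Cob (fun x y : N i => c x y)) : Cob c := by
  classical
  apply D1_ext
  intro z hz
  obtain ⟨i, hi⟩ := hN (z.support.image Prod.fst ∪ z.support.image Prod.snd)
  obtain ⟨φ, hφ⟩ := h i
  let ψ : G → QZ := fun x => if hx : x ∈ N i then φ ⟨x, hx⟩ else 0
  have hz0 : (d₂₁ (Rep.trivial ℤ G ℤ)).hom z = 0 := hz
  rw [D4_eval c ψ z, hz0, map_zero]
  rintro ⟨x, y⟩ hp
  have hx : x ∈ N i := hi x (Finset.mem_union_left _ (Finset.mem_image.mpr ⟨_, hp, rfl⟩))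
  have hy : y ∈ N i := hi y (Finset.mem_union_right _ (Finset.mem_image.mpr ⟨_, hp, rfl⟩))
  have hxy : x * y ∈ N i := mul_mem hx hy
  simp only [ψ, dif_pos hx, dif_pos hy, dif_pos hxy]
  exact hφ ⟨x, hx⟩ ⟨y, hy⟩

end Pool.Agent.LibPF5
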