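import Mathlib

/-! Definitions for MP_346600: finitely generated parafree groups and their second homology. -/

set_option autoImplicit false

namespace Pool.Agent.LibPF5

open Subgroup
open scoped commutatorElement

/-- the lower central series: `lcs G 0 = G`, `lcs G 1 = [G,G]`, `lcs G n` is the group usually called
`gamma_(n+1) G`. -/
abbrev lcs (G : Type) [Group G] (n : ℕ) : Subgroup G := (⊤ : Subgroup G).lowerCentralSeries n

theorem lcs_le_comap {F P : Type} [Group F] [Group P] (φ : F →* P) (n : ℕ) :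
    lcs F n ≤ (lcs P n).comap φ := by
  rw [← Subgroup.map_le_iff_le_comap, Subgroup.map_lowerCentralSeries]
  exact Subgroup.lowerCentralSeries_mono n le_top

/-- `P` has the nilpotent quotients of a free group: there is a homomorphism from a free group `F` which induces
isomorphisms `F / gamma_n F -> P / gamma_n P` for all `n`. -/
def NilFree (P : Type) [Group P] : Prop :=
  ∃ (ι : Type) (φ : FreeGroup ι →* P), ∀ n, Function.Bijective
    (QuotientGroup.map (lcs (FreeGroup ι) n) (lcs P n) φ (lcs_le_comap φ n))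

/-- `P` is parafree: it has the nilpotent quotients of a free group (induced by a homomorphism), and the lower
central series of `P` has trivial intersection. -/
def IsParafree (P : Type) [Group P] : Prop :=
  NilFree P ∧ ⨅ n, lcs P n = ⊥

/-- `NilFree`, with injectivity and surjectivity spelled out. -/
def NF (P : Type) [Group P] : Prop :=
  ∃ (ι : Type) (φ : FreeGroup ι →* P), ∀ n,
    (∀ w, φ w ∈ lcs P n → w ∈ lcs (FreeGroup ι) n) ∧ ∀ p, ∃ w, (φ w)⁻¹ * p ∈ lcs P n

theorem NilFree.nf {P : Type} [Group P] (h : NilFree P) : NF P := by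
  obtain ⟨ι, φ, hφ⟩ := h
  refine ⟨ι, φ, fun n => ⟨?_, ?_⟩⟩
  · intro w hw
    have h1 : QuotientGroup.map (lcs (FreeGroup ι) n) (lcs P n) φ (lcs_le_comap φ n)
        (QuotientGroup.mk w) = 1 := by
      rw [QuotientGroup.map_mk]
      exact (QuotientGroup.eq_one_iff _).mpr hw
    have h2 := (hφ n).1 (h1.trans (map_one _).symm)
    exact (QuotientGroup.eq_one_iff w).mp h2
  · intro p
    obtain ⟨x, hx⟩ := (hφ n).2 (QuotientGroup.mk p)
    obtain ⟨w, rfl⟩ := QuotientGroup.mk_surjective x
    rw [QuotientGroup.map_mk] at hx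
    exact ⟨w, QuotientGroup.eq.mp hx⟩

/-- the second homology `H_2(G;Z)` with trivial coefficients vanishes. -/
def H2Zero (G : Type) [Group G] : Prop :=
  Subsingleton (groupHomology (Rep.trivial ℤ G ℤ) 2)

/-- the group `Q/Z`. -/
abbrev QZ := AddCircle (1 : ℚ)

/-- a (not necessarily normalised) 2-cocycle with values in a trivial module. -/
def Coc {G T : Type} [Group G] [AddCommGroup T] (c : G → G → T) : Prop :=
  ∀ x y z, c x y + c (x * y) z = c y z + c x (y * z)

/-- a 2-coboundary with values in a trivial module. -/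
def Cob {G T : Type} [Group G] [AddCommGroup T] (c : G → G → T) : Prop :=
  ∃ φ : G → T, ∀ x y, c x y = φ x + φ y - φ (x * y)

/-- chains of subgroups from `K` upwards, each step adding one element which is central modulo the
previous subgroup. -/
inductive Chain {Γ : Type} [Group Γ] (K : Subgroup Γ) : Subgroup Γ → Prop
  | base : Chain K K
  | step (H : Subgroup Γ) (g : Γ) (hc : Chain K H) (hn : H.Normal) (hg : ∀ x, ⁅g, x⁆ ∈ H) :
      Chain K (H ⊔ Subgroup.zpowers g)

/-- left-normed commutators of weight `m + 1` in elements of `S`. -/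
def Wt {Γ : Type} [Group Γ] (S : Set Γ) : ℕ → Set Γ
  | 0 => S
  | m + 1 => {x | ∃ w ∈ Wt S m, ∃ s ∈ S, x = ⁅w, s⁆}

/-- the submodules `I^k A` for the augmentation ideal `I` of the group ring. -/
noncomputable def Ipow (Γ A : Type) [Group Γ] [AddCommGroup A] [Module (MonoidAlgebra ℤ Γ) A] :
    ℕ → Submodule (MonoidAlgebra ℤ Γ) A
  | 0 => ⊤
  | k + 1 => Submodule.span _ {x | ∃ g : Γ, ∃ a ∈ Ipow Γ A k, x = MonoidAlgebra.of ℤ Γ g • a - a}

/-- Groups `Γ` with a homomorphism `j : Γ → P` which have a hierarchy of level `n` over `P`: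
* `base`: every `Γ` with `H_2(Γ;Z) = 0` has level `0`;
* `map`: if `j` factors through a group of level `n`, then `Γ` has level `n` (in particular subgroups);
* `mono`: level `n` implies level `m` for `n ≤ m`;
* `tree`: `Γ` acts without inversions on a tree, the vertex stabilizers have level `k`, and for every edge stabilizer
  `C` the group `C ∩ j^(-1) (lcs P n)` is contained in the commutator subgroup of `C ∩ j^(-1) (lcs P k)` (for instance it is
  trivial); then `Γ` has level `n`;
* `cover`: `Γ` has a subgroup of level `n` which contains `j^(-1) (lcs P n)`;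
* `union`: `Γ` is a directed union of subgroups of level `n` (every finite subset lies in one of them);
* `reset`: a finitely generated `Γ` of level `n` which has the nilpotent quotients of a free group (for instance a
  f.g. parafree group) has level `0`. -/
inductive Hier (P : Type) [Group P] : ℕ → (Γ : Type) → [Group Γ] → (Γ →* P) → Prop
  | base (Γ : Type) [Group Γ] (j : Γ →* P) (h : H2Zero Γ) : Hier P 0 Γ j
  | map (n : ℕ) (Γ Δ : Type) [Group Γ] [Group Δ] (i : Γ →* Δ) (j : Δ →* P) (h : Hier P n Δ j) :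
      Hier P n Γ (j.comp i)
  | mono (n m : ℕ) (hnm : n ≤ m) (Γ : Type) [Group Γ] (j : Γ →* P) (h : Hier P n Γ j) : Hier P m Γ j
  | tree (k n : ℕ) (Γ : Type) [Group Γ] (j : Γ →* P) (V : Type) [MulAction Γ V] (T : SimpleGraph V)
      (hT : T.IsTree) (hadj : ∀ (g : Γ) (v w : V), T.Adj v w → T.Adj (g • v) (g • w))
      (hinv : ∀ (g : Γ) (v w : V), T.Adj v w → g • v = w → g • w ≠ v)
      (hkn : k ≤ n)
      (hedge : ∀ (v w : V), T.Adj v w → ∀ g : Γ, g • v = v → g • w = w → j g ∈ lcs P n →
        g ∈ ⁅MulAction.stabilizer Γ v ⊓ MulAction.stabilizer Γ w ⊓ (lcs P k).comap j,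
          MulAction.stabilizer Γ v ⊓ MulAction.stabilizer Γ w ⊓ (lcs P k).comap j⁆)
      (hv : ∀ v : V, Hier P k (MulAction.stabilizer Γ v) (j.comp (MulAction.stabilizer Γ v).subtype)) :
      Hier P n Γ j
  | cover (n : ℕ) (Γ : Type) [Group Γ] (j : Γ →* P) (N : Subgroup Γ)
      (hN : ∀ g : Γ, j g ∈ lcs P n → g ∈ N) (h : Hier P n N (j.comp N.subtype)) : Hier P n Γ j
  | union (n : ℕ) (Γ : Type) [Group Γ] (j : Γ →* P) (I : Type) (N : I → Subgroup Γ)
      (hN : ∀ s : Finset Γ, ∃ i, ∀ x ∈ s, x ∈ N i) (h : ∀ i, Hier P n (N i) (j.comp (N i).subtype)) :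
      Hier P n Γ j
  | reset (n : ℕ) (Γ : Type) [Group Γ] (j : Γ →* P) (hfg : Group.FG Γ) (hΓ : NilFree Γ)
      (h : Hier P n Γ j) : Hier P 0 Γ j

end Pool.Agent.LibPF5
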