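import Pool.Agent.LibPF5.T4
import Pool.Agent.LibPF5.D1
import Pool.Agent.LibPF5.D4
import Pool.Agent.LibPF5.Core

/-!
Row T5 (MEDIUM). Groups of level `n` over `P` are good: every `Q/Z`-valued 2-cocycle of `P` becomes a coboundary on the preimage of `lcs P n`.

PLAN. Induction on `Hier P n Γ j`, for a fixed 2-cocycle `c` of `P`. Write `c' x y = c (j x) (j y)`, a 2-cocycle of `Γ`. (Extending a function from a
subgroup `M` to `Γ` by `0`: `if h : x ∈ M then φ ⟨x,h⟩ else 0`.)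
* base: row D1 for `Γ` and `c'`.
* map: compose `φ` with `i`.
* mono: `lcs P m ≤ lcs P n` (`Subgroup.lowerCentralSeries_antitone`).
* cover: `N ≥ j⁻¹(lcs P n)`: take `φ` of `N` and extend it by `0` outside `N`.
* union: `M := (lcs P n).comap j`; row D4 for `G = M` and the subgroups `(N i).subgroupOf M`: on them `c'` is a coboundary. Extend by `0`.
* reset: theorem `core`.
* tree: `M := (lcs P k).comap j` acts on `V`. The restriction of `c'` to `M` is a 2-cocycle; for every `v` the induction hypothesis gives `φ_v` on the stabilizer of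
`v` in `Γ`; so for `x, y ∈ M` fixing `v` the condition of row T1 holds (extend `φ_v` by `0`). Row T1 for `G = M`: `ℓ : M → V → QZ`. For adjacent `v, w` let `D` be
the subgroup of `Γ` in `hedge`: for `x ∈ D` (so `x ∈ M`) `x ↦ ℓ x v - ℓ x w` is a homomorphism `D → QZ` (subtract the two identities `hℓ` for `g', g ∈ D`), so it vanishes
on `⁅D, D⁆` (e.g. a `MonoidHom` from `D` to `Multiplicative QZ` kills the commutator subgroup; `Subgroup.map_subtype_commutator`). Let `M' := (lcs P n).comap j ≤ M`;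
restrict `ℓ` and `c'` to `M'` and apply row T4 for `G = M'`: `h0` is `hedge`. Extend `φ` by `0`.
-/

set_option autoImplicit false

namespace Pool.Agent.LibPF5

open scoped commutatorElement

private theorem T5_ext {Γ : Type} [Group Γ] (N : Subgroup Γ) (c' : Γ → Γ → QZ) (φ : N → QZ)
    (h : ∀ x y : N, c' x y = φ x + φ y - φ (x * y)) :
    ∃ ψ : Γ → QZ, ∀ x y : Γ, x ∈ N → y ∈ N → c' x y = ψ x + ψ y - ψ (x * y) := by
  classical
  refine ⟨fun x => if hx : x ∈ N then φ ⟨x, hx⟩ else 0, ?_⟩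
  intro x y hx hy
  have hxy : x * y ∈ N := N.mul_mem hx hy
  simp only [hx, hy, hxy, dif_pos]
  exact h ⟨x, hx⟩ ⟨y, hy⟩

private theorem T5_comm {Γ : Type} [Group Γ] (D : Subgroup Γ) (f : D → QZ)
    (hf : ∀ x y : D, f (x * y) = f x + f y) (g : Γ) (hg : g ∈ ⁅D, D⁆) (hgD : g ∈ D) :
    f ⟨g, hgD⟩ = 0 := by
  let F : D →* Multiplicative QZ := MonoidHom.mk' (fun x => Multiplicative.ofAdd (f x))
    (fun x y => by rw [hf, ofAdd_add])
  have hle : ⁅D, D⁆ ≤ F.ker.map D.subtype := by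
    rw [Subgroup.commutator_le]
    intro a ha b hb
    refine ⟨⁅(⟨a, ha⟩ : D), (⟨b, hb⟩ : D)⁆, ?_, ?_⟩
    · rw [SetLike.mem_coe, MonoidHom.mem_ker, map_commutatorElement, commutatorElement_eq_one_iff_mul_comm]
      exact mul_comm _ _
    · rw [map_commutatorElement]
      rfl
  obtain ⟨x, hx, hxg⟩ := hle hg
  have hx' : F x = 1 := hx
  have hxe : x = ⟨g, hgD⟩ := Subtype.ext hxg
  rw [hxe] at hx'
  have h2 : Multiplicative.ofAdd (f ⟨g, hgD⟩) = 1 := hx'
  exact ofAdd_eq_one.mp h2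

theorem T5 (P : Type) [Group P] (n : ℕ) (Γ : Type) [Group Γ] (j : Γ →* P) (h : Hier P n Γ j)
    (c : P → P → QZ) (hc : Coc c) :
    ∃ φ : Γ → QZ, ∀ x y : Γ, j x ∈ lcs P n → j y ∈ lcs P n → c (j x) (j y) = φ x + φ y - φ (x * y) := by
  induction h with
  | base Γ j h =>
    obtain ⟨φ, hφ⟩ := D1 Γ h (fun x y => c (j x) (j y)) (by
      intro x y z
      simpa only [map_mul] using hc (j x) (j y) (j z))
    exact ⟨φ, fun x y _ _ => hφ x y⟩
  | map n Γ Δ i j h ih =>
    obtain ⟨φ, hφ⟩ := ih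
    refine ⟨fun x => φ (i x), fun x y hx hy => ?_⟩
    have := hφ (i x) (i y) hx hy
    rw [← map_mul] at this
    exact this
  | mono n m hnm Γ j h ih =>
    obtain ⟨φ, hφ⟩ := ih
    have hle : lcs P m ≤ lcs P n := Subgroup.lowerCentralSeries_antitone _ hnm
    exact ⟨φ, fun x y hx hy => hφ x y (hle hx) (hle hy)⟩
  | cover n Γ j N hN h ih =>
    classical
    obtain ⟨φ, hφ⟩ := ih
    refine ⟨fun x => if hx : x ∈ N then φ ⟨x, hx⟩ else 0, ?_⟩
    intro x y hx hy
    have hxN := hN x hx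
    have hyN := hN y hy
    have hxy : x * y ∈ N := N.mul_mem hxN hyN
    simp only [hxN, hyN, hxy, dif_pos]
    exact hφ ⟨x, hxN⟩ ⟨y, hyN⟩ hx hy
  | union n Γ j I N hN h ih =>
    obtain ⟨φ, hφ⟩ := D4 ((lcs P n).comap j) (fun x y => c (j x) (j y)) I
      (fun i => (N i).subgroupOf ((lcs P n).comap j)) (by
        classical
        intro s
        obtain ⟨i, hi⟩ := hN (Finset.image Subtype.val s)
        refine ⟨i, fun x hx => ?_⟩
        rw [Subgroup.mem_subgroupOf]
        exact hi _ (Finset.mem_image_of_mem Subtype.val hx)) (by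
        intro i
        obtain ⟨ψ, hψ⟩ := ih i
        refine ⟨fun x => ψ ⟨(x : (lcs P n).comap j), x.2⟩, fun x y => ?_⟩
        exact hψ ⟨((x : (lcs P n).comap j) : Γ), x.2⟩ ⟨((y : (lcs P n).comap j) : Γ), y.2⟩
          (x : (lcs P n).comap j).2 (y : (lcs P n).comap j).2)
    obtain ⟨ψ, hψ⟩ := T5_ext ((lcs P n).comap j) (fun x y => c (j x) (j y)) φ hφ
    exact ⟨ψ, fun x y hx hy => hψ x y hx hy⟩
  | reset n Γ j hfg hΓ h ih =>
    obtain ⟨φ, hφ⟩ := ih
    have hle : ∀ x : lcs Γ n, j x ∈ lcs P n := fun x => lcs_le_comap j n x.2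
    obtain ⟨ψ, hψ⟩ := core Γ hΓ hfg n (fun x y => c (j x) (j y)) (by
      intro x y z
      simpa only [map_mul] using hc (j x) (j y) (j z))
      ⟨fun x => φ x, fun x y => hφ x y (hle x) (hle y)⟩
    exact ⟨ψ, fun x y _ _ => hψ x y⟩
  | tree k n Γ j V T hT hadj hinv hkn hedge hv ih =>
    classical
    have hle : lcs P n ≤ lcs P k := Subgroup.lowerCentralSeries_antitone _ hkn
    -- Shapiro on the preimage of `lcs P k`
    obtain ⟨ℓ, hℓ⟩ := T1 (G := (lcs P k).comap j) (V := V) (T := QZ)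
      (fun x y => c (j x) (j y)) (by
        intro x y z
        simpa only [Subgroup.coe_mul, map_mul] using hc (j x) (j y) (j z)) (by
        intro v
        obtain ⟨ψ, hψ⟩ := ih v
        refine ⟨fun x => if hx : (x : Γ) ∈ MulAction.stabilizer Γ v then ψ ⟨x, hx⟩ else 0, ?_⟩
        intro x y hx hy
        have hxS : (x : Γ) ∈ MulAction.stabilizer Γ v := hx
        have hyS : (y : Γ) ∈ MulAction.stabilizer Γ v := hy
        have hxy : ((x * y : (lcs P k).comap j) : Γ) ∈ MulAction.stabilizer Γ v :=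
          (MulAction.stabilizer Γ v).mul_mem hxS hyS
        simp only [hxS, hyS, hxy, dif_pos]
        exact hψ ⟨x, hxS⟩ ⟨y, hyS⟩ x.2 y.2)
    have hmem : ∀ g : (lcs P n).comap j, (g : Γ) ∈ (lcs P k).comap j := fun g => hle g.2
    obtain ⟨φ, hφ⟩ := T4 (G := (lcs P n).comap j) (V := V) (T := QZ) T hT
      (fun g v w h => hadj g v w h) (fun g v w h => hinv g v w h)
      (fun x y => c (j x) (j y)) (fun g v => ℓ ⟨g, hmem g⟩ v)
      (fun g' g v => hℓ ⟨g', hmem g'⟩ ⟨g, hmem g⟩ v)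
      (by
        intro g v w hvw hgv hgw
        have hgv' : (g : Γ) • v = v := hgv
        have hgw' : (g : Γ) • w = w := hgw
        have hg := hedge v w hvw g hgv' hgw' g.2
        set D : Subgroup Γ := MulAction.stabilizer Γ v ⊓ MulAction.stabilizer Γ w ⊓
          (lcs P k).comap j with hD
        have hgD : (g : Γ) ∈ D := ⟨⟨hgv', hgw'⟩, hmem g⟩
        have key := T5_comm D (fun x => ℓ ⟨x, x.2.2⟩ v - ℓ ⟨x, x.2.2⟩ w) (by
          intro x y
          have e1 := hℓ ⟨x, x.2.2⟩ ⟨y, y.2.2⟩ v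
          have e2 := hℓ ⟨x, x.2.2⟩ ⟨y, y.2.2⟩ w
          have hyv : (⟨y, y.2.2⟩ : (lcs P k).comap j) • v = v := y.2.1.1
          have hyw : (⟨y, y.2.2⟩ : (lcs P k).comap j) • w = w := y.2.1.2
          rw [hyv] at e1
          rw [hyw] at e2
          have e3 : (⟨((x * y : D) : Γ), (x * y).2.2⟩ : (lcs P k).comap j) =
            ⟨x, x.2.2⟩ * ⟨y, y.2.2⟩ := rfl
          simp only [e3]
          have e4 := e1.symm.trans e2
          have e5 : ℓ (⟨x, x.2.2⟩ * ⟨y, y.2.2⟩) v = ℓ ⟨x, x.2.2⟩ v + ℓ ⟨y, y.2.2⟩ v -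
            c (j x) (j y) := by
            rw [e1]
            abel
          have e6 : ℓ (⟨x, x.2.2⟩ * ⟨y, y.2.2⟩) w = ℓ ⟨x, x.2.2⟩ w + ℓ ⟨y, y.2.2⟩ w -
            c (j x) (j y) := by
            rw [e2]
            abel
          rw [e5, e6]
          abel) g hg hgD
        exact sub_eq_zero.mp key)
    obtain ⟨ψ, hψ⟩ := T5_ext ((lcs P n).comap j) (fun x y => c (j x) (j y)) φ hφ
    exact ⟨ψ, fun x y hx hy => hψ x y hx hy⟩

end Pool.Agent.LibPF5
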