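import Pool.Agent.LibPF5.D2
import Pool.Agent.LibPF5.T5

/-! Assembly of the two theorems on finitely generated parafree groups. -/

set_option autoImplicit false

namespace Pool.Agent.LibPF5

/-- Theorem A. -/
theorem thmA (P : Type) [Group P] (hP : NilFree P) (hfg : Group.FG P) (M : Subgroup P) (m : ℕ)
    (hM : lcs P m ≤ M) :
    Function.Surjective
      (groupHomology.map M.subtype (CategoryTheory.CategoryStruct.id (Rep.trivial ℤ M ℤ)) 2 :
        groupHomology (Rep.trivial ℤ M ℤ) 2 ⟶ groupHomology (Rep.trivial ℤ P ℤ) 2) := by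
  apply D2
  intro c hc hcM
  apply core P hP hfg m c hc
  obtain ⟨φ, hφ⟩ := hcM
  exact ⟨fun x => φ ⟨x.1, hM x.2⟩, fun x y => hφ ⟨x.1, hM x.2⟩ ⟨y.1, hM y.2⟩⟩

/-- Theorem B. -/
theorem thmB (P : Type) [Group P] (hP : NilFree P) (hfg : Group.FG P) (n : ℕ)
    (h : Hier P n P (MonoidHom.id P)) : H2Zero P := by
  apply D3
  intro c hc
  apply core P hP hfg n c hc
  obtain ⟨φ, hφ⟩ := T5 P n P (MonoidHom.id P) h c hc
  exact ⟨fun x => φ x.1, fun x y => hφ x.1 y.1 x.2 y.2⟩

end Pool.Agent.LibPF5
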