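import Pool.Agent.LibPF5.Defs

/-! `lcs Γ m` is the normal closure of the left-normed commutators of weight `m + 1` in the generators. -/

set_option autoImplicit false

namespace Pool.Agent.LibPF5

open Subgroup
open scoped commutatorElement

private theorem L1_map {Γ Δ : Type} [Group Γ] [Group Δ] (f : Γ →* Δ) (S : Set Γ) (m : ℕ) :
    Wt (f '' S) m = f '' (Wt S m) := by
  induction m with
  | zero => rfl
  | succ m ih =>
    ext x
    constructor
    · rintro ⟨w, hw, s, hs, rfl⟩
      rw [ih] at hw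
      obtain ⟨w', hw', rfl⟩ := hw
      obtain ⟨s', hs', rfl⟩ := hs
      exact ⟨⁅w', s'⁆, ⟨w', hw', s', hs', rfl⟩, map_commutatorElement f w' s'⟩
    · rintro ⟨y, ⟨w, hw, s, hs, rfl⟩, rfl⟩
      exact ⟨f w, by rw [ih]; exact ⟨w, hw, rfl⟩, f s, ⟨s, hs, rfl⟩, map_commutatorElement f w s⟩

private theorem L1_lcsmap {Γ Δ : Type} [Group Γ] [Group Δ] (f : Γ →* Δ) (hf : Function.Surjective f)
    (m : ℕ) : (lcs Γ m).map f = lcs Δ m := by
  rw [Subgroup.map_lowerCentralSeries, ← MonoidHom.range_eq_map, MonoidHom.range_eq_top.mpr hf]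

private theorem L1_bot (m : ℕ) : ∀ (Γ : Type) [Group Γ] (S : Set Γ), Subgroup.closure S = ⊤ →
    Wt S m ⊆ {1} → lcs Γ m = ⊥ := by
  induction m with
  | zero =>
    intro Γ _ S hS h
    change (⊤ : Subgroup Γ) = ⊥
    rw [← hS, Subgroup.closure_eq_bot_iff]
    exact h
  | succ m ih =>
    intro Γ _ S hS h
    have hc : Wt S m ⊆ (Subgroup.center Γ : Set Γ) := by
      intro w hw
      have h1 : ∀ s ∈ S, s ∈ Subgroup.centralizer {w} := by
        intro s hs
        have h2 : ⁅w, s⁆ = 1 := h ⟨w, hw, s, hs, rfl⟩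
        rw [commutatorElement_eq_one_iff_mul_comm] at h2
        rw [Subgroup.mem_centralizer_singleton_iff]
        exact h2.symm
      have h2 : (⊤ : Subgroup Γ) ≤ Subgroup.centralizer {w} := by
        rw [← hS, Subgroup.closure_le]; exact h1
      rw [SetLike.mem_coe, Subgroup.mem_center_iff]
      intro g
      have := h2 (Subgroup.mem_top g)
      rw [Subgroup.mem_centralizer_singleton_iff] at this
      exact this
    have h1 : lcs (Γ ⧸ Subgroup.center Γ) m = ⊥ := by
      apply ih _ (QuotientGroup.mk' (Subgroup.center Γ) '' S)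
      · rw [← MonoidHom.map_closure, hS, ← MonoidHom.range_eq_map]
        exact MonoidHom.range_eq_top.mpr (QuotientGroup.mk'_surjective _)
      · rw [L1_map]
        rintro _ ⟨w, hw, rfl⟩
        exact (QuotientGroup.eq_one_iff w).mpr (hc hw)
    have h2 : lcs Γ m ≤ Subgroup.center Γ := by
      rw [← L1_lcsmap _ (QuotientGroup.mk'_surjective _), Subgroup.map_eq_bot_iff,
        QuotientGroup.ker_mk'] at h1
      exact h1
    rw [eq_bot_iff]
    change ⁅lcs Γ m, ⊤⁆ ≤ ⊥
    rw [Subgroup.commutator_le]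
    intro g hg k _
    have := Subgroup.mem_center_iff.mp (h2 hg) k
    rw [Subgroup.mem_bot, commutatorElement_eq_one_iff_mul_comm]
    exact this.symm

theorem L1 {Γ : Type} [Group Γ] (S : Set Γ) (hS : Subgroup.closure S = ⊤) (m : ℕ) :
    Subgroup.normalClosure (Wt S m) = lcs Γ m := by
  apply le_antisymm
  · haveI : (lcs Γ m).Normal := inferInstance
    apply Subgroup.normalClosure_le_normal
    induction m with
    | zero => intro x _; exact Subgroup.mem_top x
    | succ m ih =>
      rintro _ ⟨w, hw, s, hs, rfl⟩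
      exact Subgroup.commutator_mem_commutator (ih inferInstance hw) (Subgroup.mem_top s)
  · have h1 : lcs (Γ ⧸ Subgroup.normalClosure (Wt S m)) m = ⊥ := by
      apply L1_bot m _ (QuotientGroup.mk' _ '' S)
      · rw [← MonoidHom.map_closure, hS, ← MonoidHom.range_eq_map]
        exact MonoidHom.range_eq_top.mpr (QuotientGroup.mk'_surjective _)
      · rw [L1_map]
        rintro _ ⟨w, hw, rfl⟩
        exact (QuotientGroup.eq_one_iff w).mpr (Subgroup.subset_normalClosure hw)
    rw [← L1_lcsmap _ (QuotientGroup.mk'_surjective _), Subgroup.map_eq_bot_iff,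
      QuotientGroup.ker_mk'] at h1
    exact h1

theorem L1fin {Γ : Type} [Group Γ] (S : Set Γ) (hS : S.Finite) (m : ℕ) : (Wt S m).Finite := by
  induction m with
  | zero => exact hS
  | succ m ih =>
    have : Wt S (m + 1) = Set.image2 (fun w s => ⁅w, s⁆) (Wt S m) S := by
      ext x
      constructor
      · rintro ⟨w, hw, s, hs, rfl⟩; exact ⟨w, hw, s, hs, rfl⟩
      · rintro ⟨w, hw, s, hs, rfl⟩; exact ⟨w, hw, s, hs, rfl⟩
    rw [this]
    exact ih.image2 _ hS

end Pool.Agent.LibPF5
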