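import Pool.Agent.LibPF5.L1

/-! A f.g. group has a chain from `lcs Γ m` to the whole group. -/

set_option autoImplicit false

namespace Pool.Agent.LibPF5

open Subgroup
open scoped commutatorElement

private theorem L2_normal {Γ : Type} [Group Γ] (k : ℕ) (H : Subgroup Γ) (h1 : lcs Γ (k + 1) ≤ H)
    (h2 : H ≤ lcs Γ k) : H.Normal := by
  constructor
  intro h hh x
  have h3 : ⁅h, x⁆ ∈ H := h1 (Subgroup.commutator_mem_commutator (h2 hh) (Subgroup.mem_top x))
  have h4 : x * h * x⁻¹ = ⁅h, x⁆⁻¹ * h := by rw [commutatorElement_def]; group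
  rw [h4]
  exact mul_mem (inv_mem h3) hh

private theorem L2_Wt {Γ : Type} [Group Γ] (S : Set Γ) (k : ℕ) : ∀ x ∈ Wt S k, x ∈ lcs Γ k := by
  induction k with
  | zero => intro x _; exact Subgroup.mem_top x
  | succ k ih =>
    rintro _ ⟨w, hw, s, hs, rfl⟩
    exact Subgroup.commutator_mem_commutator (ih _ hw) (Subgroup.mem_top s)

private theorem L2_step {Γ : Type} [Group Γ] (K : Subgroup Γ) (S : Set Γ) (k : ℕ)
    (hk : Chain K (lcs Γ (k + 1))) (t : Finset Γ) (ht : (t : Set Γ) ⊆ Wt S k) :
    Chain K (lcs Γ (k + 1) ⊔ Subgroup.closure (t : Set Γ)) := by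
  classical
  induction t using Finset.induction_on with
  | empty => simpa using hk
  | insert g t hg ih =>
    rw [Finset.coe_insert, Set.insert_eq, Subgroup.closure_union, ← Subgroup.zpowers_eq_closure,
      sup_comm (Subgroup.zpowers g), ← sup_assoc]
    have htS : (t : Set Γ) ⊆ Wt S k := fun x hx => ht (by simp [hx] : x ∈ ((insert g t : Finset Γ) : Set Γ))
    have hgS : g ∈ Wt S k := ht (by simp : g ∈ ((insert g t : Finset Γ) : Set Γ))
    have hle : lcs Γ (k + 1) ⊔ Subgroup.closure (t : Set Γ) ≤ lcs Γ k := by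
      apply sup_le (Subgroup.lowerCentralSeries_antitone _ (Nat.le_succ k))
      rw [Subgroup.closure_le]
      exact fun x hx => L2_Wt S k x (htS hx)
    refine Chain.step _ g (ih htS) (L2_normal k _ le_sup_left hle) ?_
    intro x
    exact (le_sup_left : lcs Γ (k + 1) ≤ _)
      (Subgroup.commutator_mem_commutator (L2_Wt S k g hgS) (Subgroup.mem_top x))

theorem L2 {Γ : Type} [Group Γ] (hfg : Group.FG Γ) (m : ℕ) : Chain (lcs Γ m) (⊤ : Subgroup Γ) := by
  classical
  obtain ⟨S, hS, hSf⟩ := Group.fg_iff.mp hfg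
  have key : ∀ d, d ≤ m → Chain (lcs Γ m) (lcs Γ (m - d)) := by
    intro d
    induction d with
    | zero => intro _; exact Chain.base
    | succ d ih =>
      intro hd
      have h1 := ih (by omega)
      obtain ⟨k, hk⟩ : ∃ k, m - d = k + 1 := ⟨m - d - 1, by omega⟩
      have hk' : m - (d + 1) = k := by omega
      rw [hk] at h1
      rw [hk']
      have h2 := L2_step (lcs Γ m) S k h1 (L1fin S hSf k).toFinset (by simp)
      rw [Set.Finite.coe_toFinset] at h2
      have h3 : lcs Γ (k + 1) ⊔ Subgroup.closure (Wt S k) = lcs Γ k := by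
        have hle : lcs Γ (k + 1) ⊔ Subgroup.closure (Wt S k) ≤ lcs Γ k := by
          apply sup_le (Subgroup.lowerCentralSeries_antitone _ (Nat.le_succ k))
          rw [Subgroup.closure_le]
          exact fun x hx => L2_Wt S k x hx
        apply le_antisymm hle
        have hn := L2_normal k _ le_sup_left hle
        rw [← L1 S hS k]
        haveI := hn
        apply Subgroup.normalClosure_le_normal
        exact fun x hx => (le_sup_right : Subgroup.closure (Wt S k) ≤ _) (Subgroup.subset_closure hx)
      rw [h3] at h2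
      exact h2
  have := key m le_rfl
  rw [Nat.sub_self] at this
  exact this

end Pool.Agent.LibPF5
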