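import Pool.Agent.LibPF5.Defs

/-! Explicit Shapiro lemma for 2-cocycles. -/

set_option autoImplicit false

namespace Pool.Agent.LibPF5

theorem T1 {G V T : Type} [Group G] [MulAction G V] [AddCommGroup T] (c : G → G → T) (hc : Coc c)
    (hv : ∀ v : V, ∃ φ : G → T, ∀ x y : G, x • v = v → y • v = v → c x y = φ x + φ y - φ (x * y)) :
    ∃ ℓ : G → V → T, ∀ (g' g : G) (v : V), c g' g = ℓ g' (g • v) + ℓ g v - ℓ (g' * g) v := by
  classical
  choose φ hφ using hv
  -- representatives
  let r : V → V := fun v => Quotient.out (Quotient.mk (MulAction.orbitRel G V) v)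
  have hr : ∀ v, ∃ t : G, t • r v = v := by
    intro v
    have h : (MulAction.orbitRel G V).r v (r v) := (MulAction.orbitRel G V).symm (Quotient.mk_out v)
    obtain ⟨t, ht⟩ := h
    exact ⟨t, ht⟩
  have hrg : ∀ (g : G) v, r (g • v) = r v := by
    intro g v
    have : Quotient.mk (MulAction.orbitRel G V) (g • v) = Quotient.mk (MulAction.orbitRel G V) v :=
      Quotient.sound ⟨g, rfl⟩
    simp only [r, this]
  choose t ht using hr
  let h : G → V → G := fun g v => (t (g • v))⁻¹ * g * t v
  have hfix : ∀ g v, h g v • r v = r v := by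
    intro g v
    have h1 : (t (g • v))⁻¹ • (g • v) = r v := by
      rw [inv_smul_eq_iff, ← hrg g v, ht]
    simp only [h, mul_smul, ht, h1]
  have e1 : ∀ g v, g * t v = t (g • v) * h g v := by
    intro g v; simp only [h]; group
  have e2 : ∀ g' g v, h (g' * g) v = h g' (g • v) * h g v := by
    intro g' g v; simp only [h, mul_smul]; group
  refine ⟨fun g v => c g (t v) - c (t (g • v)) (h g v) + φ (r v) (h g v), ?_⟩
  intro g' g v
  have c1 := hc g' g (t v)
  have c2 := hc g' (t (g • v)) (h g v)
  have c3 := hc (t (g' • g • v)) (h g' (g • v)) (h g v)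
  have c4 := hφ (r v) (h g' (g • v)) (h g v) (by rw [← hrg g v]; exact hfix g' (g • v)) (hfix g v)
  rw [e1 g v] at c1
  rw [e1 g' (g • v)] at c2
  rw [← e2] at c3 c4
  simp only [hrg, mul_smul]
  have : c g' g = (c g (t v) + c g' (t (g • v) * h g v)) - c (g' * g) (t v) := by rw [← c1]; abel
  rw [this]
  have c2' : c g' (t (g • v) * h g v) =
      c g' (t (g • v)) + c (t (g' • g • v) * h g' (g • v)) (h g v) - c (t (g • v)) (h g v) := by
    rw [c2]; abel
  have c3' : c (t (g' • g • v) * h g' (g • v)) (h g v) =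
      c (h g' (g • v)) (h g v) + c (t (g' • g • v)) (h (g' * g) v) - c (t (g' • g • v)) (h g' (g • v)) := by
    rw [← c3]; abel
  rw [c2', c3', c4]
  abel

end Pool.Agent.LibPF5
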