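import Pool.Agent.LibPF5.Defs

/-! An antisymmetric 1-cocycle on the darts of a graph without inversions is a coboundary, if it vanishes on stabilizers. -/

set_option autoImplicit false

namespace Pool.Agent.LibPF5

theorem T2 {G V T : Type} [Group G] [MulAction G V] [AddCommGroup T] (𝒯 : SimpleGraph V)
    (hadj : ∀ (g : G) (v w : V), 𝒯.Adj v w → 𝒯.Adj (g • v) (g • w))
    (hinv : ∀ (g : G) (v w : V), 𝒯.Adj v w → g • v = w → g • w ≠ v)
    (μ : G → V → V → T) (hanti : ∀ g v w, μ g w v = - μ g v w)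
    (hμ : ∀ g' g v w, μ (g' * g) v w = μ g' (g • v) (g • w) + μ g v w)
    (h0 : ∀ (g : G) (v w : V), 𝒯.Adj v w → g • v = v → g • w = w → μ g v w = 0) :
    ∃ ν : V → V → T, (∀ v w, 𝒯.Adj v w → ν w v = - ν v w) ∧
      ∀ (g : G) (v w : V), 𝒯.Adj v w → μ g v w = ν (g • v) (g • w) - ν v w := by
  classical
  -- the equivalence relation
  let st : Setoid (V × V) :=
    { r := fun d d' => ∃ g : G, (g • d.1 = d'.1 ∧ g • d.2 = d'.2) ∨ (g • d.1 = d'.2 ∧ g • d.2 = d'.1)
      iseqv := by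
        refine ⟨fun d => ⟨1, Or.inl (by simp)⟩, ?_, ?_⟩
        · rintro d d' ⟨g, h | h⟩
          · exact ⟨g⁻¹, Or.inl ⟨by rw [← h.1, inv_smul_smul], by rw [← h.2, inv_smul_smul]⟩⟩
          · exact ⟨g⁻¹, Or.inr ⟨by rw [← h.2, inv_smul_smul], by rw [← h.1, inv_smul_smul]⟩⟩
        · rintro d d' d'' ⟨g, h⟩ ⟨k, h'⟩
          refine ⟨k * g, ?_⟩
          simp only [mul_smul]
          rcases h with h | h <;> rcases h' with h' | h'
          · left; rw [h.1, h.2]; exact h'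
          · right; rw [h.1, h.2]; exact h'
          · right; rw [h.1, h.2]; exact ⟨h'.2, h'.1⟩
          · left; rw [h.1, h.2]; exact ⟨h'.2, h'.1⟩ }
  let rep : V × V → V × V := fun d => Quotient.out (Quotient.mk st d)
  have hrep : ∀ d, ∃ g : G, (g • (rep d).1 = d.1 ∧ g • (rep d).2 = d.2) ∨
      (g • (rep d).1 = d.2 ∧ g • (rep d).2 = d.1) := fun d => Quotient.mk_out (s := st) d
  have hrepeq : ∀ d d' : V × V, st.r d d' → rep d = rep d' := by
    intro d d' h
    have : Quotient.mk st d = Quotient.mk st d' := Quotient.sound h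
    simp only [rep, this]
  -- for a dart: positive or negative
  let pos : V → V → Prop := fun v w => ∃ g : G, g • (rep (v, w)).1 = v ∧ g • (rep (v, w)).2 = w
  let neg : V → V → Prop := fun v w => ∃ g : G, g • (rep (v, w)).1 = w ∧ g • (rep (v, w)).2 = v
  let ν : V → V → T := fun v w =>
    if h : pos v w then μ h.choose (rep (v, w)).1 (rep (v, w)).2
    else if h : neg v w then - μ h.choose (rep (v, w)).1 (rep (v, w)).2 else 0
  have hadj' : ∀ (g : G) v w, 𝒯.Adj (g • v) (g • w) → 𝒯.Adj v w := by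
    intro g v w h
    have := hadj g⁻¹ _ _ h
    simpa using this
  have hwd : ∀ (g g' : G) a b, 𝒯.Adj a b → g • a = g' • a → g • b = g' • b → μ g a b = μ g' a b := by
    intro g g' a b hab h1 h2
    have h3 : (g'⁻¹ * g) • a = a := by rw [mul_smul, h1, inv_smul_smul]
    have h4 : (g'⁻¹ * g) • b = b := by rw [mul_smul, h2, inv_smul_smul]
    have h5 := hμ g' (g'⁻¹ * g) a b
    rw [h0 _ _ _ hab h3 h4, h3, h4, mul_inv_cancel_left, add_zero] at h5
    exact h5
  have hrepadj : ∀ v w, 𝒯.Adj v w → 𝒯.Adj (rep (v, w)).1 (rep (v, w)).2 := by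
    intro v w hvw
    obtain ⟨g, h | h⟩ := hrep (v, w)
    · apply hadj' g; rw [h.1, h.2]; exact hvw
    · apply hadj' g; rw [h.1, h.2]; exact hvw.symm
  have hexcl : ∀ v w, 𝒯.Adj v w → pos v w → ¬ neg v w := by
    rintro v w hvw ⟨g, h1, h2⟩ ⟨k, h3, h4⟩
    refine hinv (k * g⁻¹) v w hvw ?_ ?_
    · rw [mul_smul, ← h1, inv_smul_smul, h3]
    · rw [mul_smul, ← h2, inv_smul_smul, h4]
  have νpos : ∀ v w (g : G), 𝒯.Adj v w → g • (rep (v, w)).1 = v → g • (rep (v, w)).2 = w →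
      ν v w = μ g (rep (v, w)).1 (rep (v, w)).2 := by
    intro v w g hvw h1 h2
    have hp : pos v w := ⟨g, h1, h2⟩
    simp only [ν, dif_pos hp]
    exact hwd _ _ _ _ (hrepadj v w hvw) (hp.choose_spec.1.trans h1.symm) (hp.choose_spec.2.trans h2.symm)
  have νneg : ∀ v w (g : G), 𝒯.Adj v w → g • (rep (v, w)).1 = w → g • (rep (v, w)).2 = v →
      ν v w = - μ g (rep (v, w)).1 (rep (v, w)).2 := by
    intro v w g hvw h1 h2
    have hn : neg v w := ⟨g, h1, h2⟩
    have hp : ¬ pos v w := fun hp => hexcl v w hvw hp hn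
    simp only [ν, dif_neg hp, dif_pos hn]
    rw [hwd _ _ _ _ (hrepadj v w hvw) (hn.choose_spec.1.trans h1.symm) (hn.choose_spec.2.trans h2.symm)]
  have hrepsymm : ∀ v w : V, rep (w, v) = rep (v, w) :=
    fun v w => hrepeq _ _ ⟨1, Or.inr (by simp)⟩
  have hrepg : ∀ (g : G) (v w : V), rep (g • v, g • w) = rep (v, w) :=
    fun g v w => (hrepeq _ _ ⟨g, Or.inl ⟨rfl, rfl⟩⟩).symm
  refine ⟨ν, ?_, ?_⟩
  · intro v w hvw
    obtain ⟨g, h | h⟩ := hrep (v, w)
    · rw [νpos v w g hvw h.1 h.2, νneg w v g hvw.symm (by rw [hrepsymm]; exact h.1)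
        (by rw [hrepsymm]; exact h.2), hrepsymm]
    · rw [νneg v w g hvw h.1 h.2, νpos w v g hvw.symm (by rw [hrepsymm]; exact h.1)
        (by rw [hrepsymm]; exact h.2), hrepsymm, neg_neg]
  · intro g v w hvw
    obtain ⟨k, h | h⟩ := hrep (v, w)
    · rw [νpos v w k hvw h.1 h.2, νpos (g • v) (g • w) (g * k) (hadj g v w hvw)
        (by rw [hrepg, mul_smul, h.1]) (by rw [hrepg, mul_smul, h.2]), hrepg, hμ, h.1, h.2]
      abel
    · rw [νneg v w k hvw h.1 h.2, νneg (g • v) (g • w) (g * k) (hadj g v w hvw)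
        (by rw [hrepg, mul_smul, h.1]) (by rw [hrepg, mul_smul, h.2]), hrepg, hμ, h.1, h.2,
        hanti g v w]
      abel

end Pool.Agent.LibPF5
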