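import Pool.Agent.LibPF5.Defs

/-! Integration on a tree: an antisymmetric function on the darts of a tree is a difference. -/

set_option autoImplicit false

namespace Pool.Agent.LibPF5

/-- sum along a walk -/
private def T3_sum {V T : Type} [AddCommGroup T] {G : SimpleGraph V} (ν : V → V → T) {v w : V}
    (p : G.Walk v w) : T := (p.darts.map (fun d => ν d.fst d.snd)).sum

private theorem T3_concat {V T : Type} [AddCommGroup T] {G : SimpleGraph V} (ν : V → V → T) {u v w : V}
    (p : G.Walk u v) (h : G.Adj v w) : T3_sum ν (p.concat h) = T3_sum ν p + ν v w := by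
  simp [T3_sum, SimpleGraph.Walk.darts_concat]

theorem T3 {V T : Type} [AddCommGroup T] (𝒯 : SimpleGraph V) (hT : 𝒯.IsTree) (ν : V → V → T)
    (hν : ∀ v w, 𝒯.Adj v w → ν w v = - ν v w) :
    ∃ f : V → T, ∀ v w, 𝒯.Adj v w → ν v w = f w - f v := by
  classical
  obtain ⟨o⟩ := hT.1.nonempty
  choose p hp hp' using fun v => hT.existsUnique_path o v
  have hac := hT.isAcyclic
  refine ⟨fun v => T3_sum ν (p v), ?_⟩
  intro v w hvw
  by_cases hw : w ∈ (p v).support
  · have h1 := hac.path_concat (hp w) (hp v) hvw.symm hw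
    have h2 : T3_sum ν (p v) = T3_sum ν (p w) + ν w v := by rw [h1, T3_concat]
    beta_reduce
    rw [h2, hν v w hvw]; abel
  · have hv : v ∈ (p w).support :=
      hac.mem_support_of_ne_mem_support_of_adj_of_isPath (hp w) (hp v) hvw.symm hw
    have h1 := hac.path_concat (hp v) (hp w) hvw hv
    have h2 : T3_sum ν (p w) = T3_sum ν (p v) + ν v w := by rw [h1, T3_concat]
    beta_reduce
    rw [h2]; abel

end Pool.Agent.LibPF5
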