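import Pool.Agent.LibPF5.T1
import Pool.Agent.LibPF5.T2
import Pool.Agent.LibPF5.T3

/-! A 2-cocycle of a group acting on a tree is a coboundary if it is one on the vertex stabilizers, compatibly on edges. -/

set_option autoImplicit false

namespace Pool.Agent.LibPF5

theorem T4 {G V T : Type} [Group G] [MulAction G V] [AddCommGroup T] (𝒯 : SimpleGraph V)
    (hT : 𝒯.IsTree) (hadj : ∀ (g : G) (v w : V), 𝒯.Adj v w → 𝒯.Adj (g • v) (g • w))
    (hinv : ∀ (g : G) (v w : V), 𝒯.Adj v w → g • v = w → g • w ≠ v)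
    (c : G → G → T) (ℓ : G → V → T)
    (hℓ : ∀ (g' g : G) (v : V), c g' g = ℓ g' (g • v) + ℓ g v - ℓ (g' * g) v)
    (h0 : ∀ (g : G) (v w : V), 𝒯.Adj v w → g • v = v → g • w = w → ℓ g v = ℓ g w) : Cob c := by
  obtain ⟨ν, hν1, hν2⟩ := T2 𝒯 hadj hinv (fun g v w => ℓ g w - ℓ g v) (by intro g v w; abel)
    (by
      intro g' g v w
      have h1 := hℓ g' g v
      have h2 := hℓ g' g w
      have h3 : ℓ (g' * g) v = ℓ g' (g • v) + ℓ g v - c g' g := by rw [h1]; abel
      have h4 : ℓ (g' * g) w = ℓ g' (g • w) + ℓ g w - c g' g := by rw [h2]; abel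
      simp only [h3, h4]; abel)
    (by
      intro g v w hvw h1 h2
      simp only [h0 g v w hvw h1 h2, sub_self])
  obtain ⟨f, hf⟩ := T3 𝒯 hT ν hν1
  obtain ⟨o⟩ := hT.1.nonempty
  have key : ∀ (g : G) (v w : V), 𝒯.Adj v w → ℓ g v - f (g • v) + f v = ℓ g w - f (g • w) + f w := by
    intro g v w hvw
    have h1 := hν2 g v w hvw
    rw [hf _ _ (hadj g v w hvw), hf _ _ hvw] at h1
    have h2 : ℓ g w = ℓ g v + (f (g • w) - f (g • v) - (f w - f v)) := by rw [← h1]; abel
    rw [h2]; abel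
  have key2 : ∀ (g : G) (v w : V), 𝒯.Reachable v w →
      ℓ g v - f (g • v) + f v = ℓ g w - f (g • w) + f w := by
    intro g v w ⟨p⟩
    induction p with
    | nil => rfl
    | cons h p ih => exact (key g _ _ h).trans ih
  refine ⟨fun g => ℓ g o - f (g • o) + f o, ?_⟩
  intro g' g
  have h1 := hℓ g' g o
  have h2 := key2 g' (g • o) o (hT.1.preconnected _ _)
  have h3 : ℓ g' (g • o) = ℓ g' o - f (g' • o) + f o + f (g' • g • o) - f (g • o) := by
    rw [← h2]; abel
  rw [h1, h3]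
  simp only [mul_smul]
  abel

end Pool.Agent.LibPF5
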