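import Pool.Agent.LibPF5.Defs

/-! From the splitting theorem for central extensions to 2-cocycles. -/

set_option autoImplicit false

namespace Pool.Agent.LibPF5

/-- the extension group of a 2-cocycle -/
structure X1Ext {P T : Type} (c : P → P → T) where
  a : P
  b : T

theorem X1_ext {P T : Type} {c : P → P → T} {x y : X1Ext c} (h1 : x.a = y.a) (h2 : x.b = y.b) :
    x = y := by
  cases x; cases y; simp_all

theorem X1_one {P T : Type} [Group P] [AddCommGroup T] {c : P → P → T} (hc : Coc c) (x : P) :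
    c 1 x = c 1 1 ∧ c x 1 = c 1 1 := by
  have h1 := hc 1 1 x
  have h2 := hc x 1 1
  simp only [one_mul, mul_one] at h1 h2
  constructor
  · have := add_right_cancel (h1.trans (add_comm _ _))
    exact this.symm
  · exact add_right_cancel h2

/-- the group structure -/
@[reducible] def X1Group {P T : Type} [Group P] [AddCommGroup T] {c : P → P → T} (hc : Coc c) :
    Group (X1Ext c) :=
  letI : Mul (X1Ext c) := ⟨fun x y => ⟨x.a * y.a, x.b + y.b + c x.a y.a⟩⟩
  letI : One (X1Ext c) := ⟨⟨1, - c 1 1⟩⟩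
  letI : Inv (X1Ext c) := ⟨fun x => ⟨x.a⁻¹, - x.b - c x.a⁻¹ x.a - c 1 1⟩⟩
  Group.ofLeftAxioms
    (by
      intro x y z
      apply X1_ext
      · exact mul_assoc _ _ _
      · change x.b + y.b + c x.a y.a + z.b + c (x.a * y.a) z.a =
          x.b + (y.b + z.b + c y.a z.a) + c x.a (y.a * z.a)
        have := hc x.a y.a z.a
        have e1 : x.b + y.b + c x.a y.a + z.b + c (x.a * y.a) z.a =
          x.b + y.b + z.b + (c x.a y.a + c (x.a * y.a) z.a) := by abel
        rw [e1, this]; abel)
    (by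
      intro x
      apply X1_ext
      · exact one_mul _
      · change - c 1 1 + x.b + c 1 x.a = x.b
        rw [(X1_one hc x.a).1]; abel)
    (by
      intro x
      apply X1_ext
      · exact inv_mul_cancel _
      · change - x.b - c x.a⁻¹ x.a - c 1 1 + x.b + c x.a⁻¹ x.a = - c 1 1
        abel)

theorem X1 (P : Type) [Group P] (M : Subgroup P)
    (H : ∀ (E : Type) [Group E] (q : E →* P), Function.Surjective q → q.ker ≤ Subgroup.center E →
      ∀ s : M →* E, (∀ m, q (s m) = m) → ∃ σ : P →* E, ∀ p, q (σ p) = p)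
    (T : Type) [AddCommGroup T] (c : P → P → T) (hc : Coc c) (hM : Cob (fun x y : M => c x y)) :
    Cob c := by
  letI : Group (X1Ext c) := X1Group hc
  have hmul : ∀ x y : X1Ext c, x * y = ⟨x.a * y.a, x.b + y.b + c x.a y.a⟩ := fun _ _ => rfl
  let q : X1Ext c →* P := MonoidHom.mk' (fun x => x.a) (fun _ _ => rfl)
  have hq : Function.Surjective q := fun p => ⟨⟨p, 0⟩, rfl⟩
  have hker : q.ker ≤ Subgroup.center (X1Ext c) := by
    intro x hx
    have hx1 : x.a = 1 := hx
    rw [Subgroup.mem_center_iff]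
    intro y
    rw [hmul, hmul]
    apply X1_ext
    · simp [hx1]
    · change y.b + x.b + c y.a x.a = x.b + y.b + c x.a y.a
      rw [hx1, (X1_one hc y.a).1, (X1_one hc y.a).2]; abel
  obtain ⟨φ, hφ⟩ := hM
  let s : M →* X1Ext c := MonoidHom.mk' (fun m => ⟨m, - φ m⟩) (by
    intro x y
    rw [hmul]
    apply X1_ext
    · rfl
    · change - φ (x * y) = - φ x + - φ y + c x y
      have h2 : c x y = φ x + φ y - φ (x * y) := hφ x y
      rw [h2]; abel)
  obtain ⟨σ, hσ⟩ := H (X1Ext c) q hq hker s (fun _ => rfl)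
  have hσa : ∀ p, (σ p).a = p := hσ
  refine ⟨fun p => - (σ p).b, ?_⟩
  intro x y
  have h1 : (σ (x * y)).b = (σ x).b + (σ y).b + c x y := by
    rw [map_mul, hmul]
    change (σ x).b + (σ y).b + c (σ x).a (σ y).a = _
    rw [hσa, hσa]
  change c x y = - (σ x).b + - (σ y).b - - (σ (x * y)).b
  rw [h1]; abel

end Pool.Agent.LibPF5
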